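import Pool.Agent.Run7.h135.P24.V

/-!
# `X_0(24)`: the number of pairs of vectors with a given inner product and a common line modulo three

`S_CPF3` and `S_CP3`.
-/

set_option autoImplicit false

namespace Pool.Agent.Run7.h135.P24

open Finset
open Pool.Agent.Z700 (hh fac)
open Pool.Agent.N969.P15 (V3)
open Pool.Agent.Run7.h135.P24.A (mem_vef odd_coord ext3 jac_sq)

theorem sq_three {b : ℤ} (hb : ¬ (3 : ℤ) ∣ b) : ∃ t, b ^ 2 = 1 + 3 * t := by
  rcases (show b % 3 = 1 ∨ b % 3 = 2 by omega) with h | h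
  · obtain ⟨k, rfl⟩ : ∃ k, b = 3 * k + 1 := ⟨b / 3, by omega⟩
    exact ⟨3 * k ^ 2 + 2 * k, by ring⟩
  · obtain ⟨k, rfl⟩ : ∃ k, b = 3 * k + 2 := ⟨b / 3, by omega⟩
    exact ⟨3 * k ^ 2 + 4 * k + 1, by ring⟩

theorem prop_iff {b x y : ℤ} (hb : ¬ (3 : ℤ) ∣ b) : (3 : ℤ) ∣ x + b * y ↔ (3 : ℤ) ∣ y + 4 * b * x := by
  obtain ⟨t, ht⟩ := sq_three hb
  constructor
  · rintro ⟨r, hr⟩
    exact ⟨b * r + b * x - t * y, by linear_combination b * hr - y * ht⟩
  · rintro ⟨r, hr⟩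
    exact ⟨b * r - x - 4 * t * x, by linear_combination b * hr - 4 * x * ht⟩

theorem exists_z {v w : V3} {b : ℤ} (hb : ¬ (3 : ℤ) ∣ b) (h : ∀ i, (3 : ℤ) ∣ v i + b * w i) :
    ∃ z : V3, w = (3 : ℤ) • z + (-(4 * b)) • v := by
  have h2 : ∀ i, ∃ t : ℤ, w i + 4 * b * v i = 3 * t := fun i => (prop_iff hb).1 (h i)
  choose t ht using h2
  refine ⟨t, ?_⟩
  funext i
  simp only [Pi.add_apply, Pi.smul_apply, smul_eq_mul]
  linear_combination ht i

theorem ip_z (v z : V3) (c : ℤ) : ip v ((3 : ℤ) • z + c • v) = 3 * ip v z + c * ip v v ∧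
    ip ((3 : ℤ) • z + c • v) ((3 : ℤ) • z + c • v) =
      9 * ip z z + 6 * c * ip v z + c ^ 2 * ip v v := by
  simp only [ip, Pi.add_apply, Pi.smul_apply, smul_eq_mul]
  constructor <;> ring

theorem cpf3_zero {n1 n2 : ℕ} {b : ℤ} {D : ℕ} (hb : ¬ (3 : ℤ) ∣ b)
    (hDD : (D : ℤ) = n1 * n2 - b ^ 2) (h9 : ¬ 9 ∣ D) : cpf3 n1 b n2 = 0 := by
  unfold cpf3
  rw [Finset.card_eq_zero, Finset.filter_eq_empty_iff]
  rintro ⟨v, w⟩ hvw ⟨h1, h2⟩
  rw [mem_product, mem_vef, mem_vef] at hvw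
  obtain ⟨a1, a2⟩ := hvw
  dsimp only at a1 a2 h1 h2
  obtain ⟨z, rfl⟩ := exists_z hb h2
  obtain ⟨e1, e2⟩ := ip_z v z (-(4 * b))
  rw [a1] at e1 e2
  apply h9
  have : (9 : ℤ) ∣ D := by
    change ip v v = n1 at a1
    change ip _ _ = (n2 : ℤ) at a2
    rw [e1] at h1
    rw [e2] at a2
    refine ⟨n1 * ip z z - ip v z ^ 2, ?_⟩
    rw [hDD, ← a2]
    linear_combination (3 * ip v z + -(4 * b) * n1 + b) * h1
  exact_mod_cast this

theorem cpf3_eq {n1 n2 n3 : ℕ} {b b' : ℤ} (hb : ¬ (3 : ℤ) ∣ b) (hc : b * (1 + 4 * n1) = 3 * b')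
    (hn : 9 * (n3 : ℤ) = n2 + 8 * b ^ 2 + 16 * b ^ 2 * n1) : cpf3 n1 b n2 = cpf n1 b' n3 := by
  classical
  unfold cpf3 cpf
  symm
  refine Finset.card_bij (fun q _ => (q.1, (3 : ℤ) • q.2 + (-(4 * b)) • q.1)) ?_ ?_ ?_
  · rintro ⟨v, z⟩ h
    rw [mem_filter, mem_product, mem_vef, mem_vef] at h ⊢
    obtain ⟨⟨a1, a2⟩, a3⟩ := h
    dsimp only at a1 a2 a3 ⊢
    obtain ⟨e1, e2⟩ := ip_z v z (-(4 * b))
    refine ⟨⟨a1, ?_⟩, ?_, fun i => (prop_iff hb).2 ⟨z i, ?_⟩⟩
    · refine Eq.trans e2 ?_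
      rw [a1, a2, a3]
      linear_combination hn + (8 * b) * hc
    · refine Eq.trans e1 ?_
      rw [a1, a3]
      linear_combination -hc
    · simp only [Pi.add_apply, Pi.smul_apply, smul_eq_mul]
      ring
  · rintro ⟨v, z⟩ _ ⟨v2, z2⟩ _ he
    have h1 : v = v2 := congrArg Prod.fst he
    have h2 : (3 : ℤ) • z + (-(4 * b)) • v = (3 : ℤ) • z2 + (-(4 * b)) • v2 := congrArg Prod.snd he
    subst h1
    have h4 : z = z2 := by
      funext i
      have := congrFun h2 i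
      simp only [Pi.add_apply, Pi.smul_apply, smul_eq_mul] at this
      omega
    rw [h4]
  · rintro ⟨v, w⟩ h
    rw [mem_filter, mem_product, mem_vef, mem_vef] at h
    obtain ⟨⟨a1, a2⟩, a3, a4⟩ := h
    dsimp only at a1 a2 a3 a4
    obtain ⟨z, rfl⟩ := exists_z hb a4
    obtain ⟨e1, e2⟩ := ip_z v z (-(4 * b))
    rw [e1, a1] at a3
    rw [e2, a1] at a2
    refine ⟨(v, z), ?_, rfl⟩
    rw [mem_filter, mem_product, mem_vef, mem_vef]
    have h5 : ip v z = b' := by linarith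
    refine ⟨⟨a1, ?_⟩, h5⟩
    dsimp only
    rw [h5] at a2
    have : 9 * ip z z = 9 * (n3 : ℤ) := by linear_combination a2 - hn - 8 * b * hc
    linarith

/-! ### the local densities -/

/-- the part prime to three -/
def lrest (n D : ℕ) : ℤ :=
  if Odd (D.factorization 2) then ∏ l ∈ (D.primeFactors.erase 2).erase 3, fac n D l else 0

theorem loc3_eq (n D : ℕ) : loc3 n D = (D.factorization 3 : ℤ) * lrest n D := by
  unfold loc3 lrest
  split_ifs <;> simp

theorem fac_sq {n D l : ℕ} (hl : l.Prime) (l3 : l ≠ 3) (D0 : D ≠ 0) :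
    fac n (9 * D) l = fac n D l := by
  have p3 : Nat.Prime 3 := by norm_num
  have hv : (9 * D).factorization l = D.factorization l := by
    rw [Nat.factorization_mul (by norm_num) D0]
    have e : 9 = 3 ^ 2 := by norm_num
    rw [Finsupp.add_apply, e, p3.factorization_pow]
    simp [Ne.symm l3]
  have h3l : ¬ l ∣ 3 := by
    rw [Nat.prime_dvd_prime_iff_eq hl p3]
    exact l3
  have hdiv : 9 * D / l ^ D.factorization l = 9 * (D / l ^ D.factorization l) :=
    Nat.mul_div_assoc _ (Nat.ordProj_dvd D l)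
  unfold fac
  split_ifs with h1
  · unfold hh
    rw [hv, hdiv]
    split_ifs with h2
    · have e : (-((9 * (D / l ^ D.factorization l) : ℕ) : ℤ)) =
          (-((D / l ^ D.factorization l : ℕ) : ℤ)) * ((3 : ℕ) : ℤ) ^ 2 := by
        push_cast
        ring
      rw [e, jac_sq hl _ h3l]
    · have e : (-((n / l * (9 * (D / l ^ D.factorization l)) : ℕ) : ℤ)) =
          (-((n / l * (D / l ^ D.factorization l) : ℕ) : ℤ)) * ((3 : ℕ) : ℤ) ^ 2 := by
        push_cast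
        ring
      rw [e, jac_sq hl _ h3l]
  · rw [hv]

theorem lrest_sq {n D : ℕ} (D0 : D ≠ 0) : lrest n (9 * D) = lrest n D := by
  have p3 : Nat.Prime 3 := by norm_num
  have e : 9 = 3 ^ 2 := by norm_num
  have hv : ∀ l : ℕ, l ≠ 3 → (9 * D).factorization l = D.factorization l := by
    intro l hl
    rw [Nat.factorization_mul (by norm_num) D0, Finsupp.add_apply, e, p3.factorization_pow]
    simp [Ne.symm hl]
  unfold lrest
  rw [hv 2 (by norm_num)]
  have hp : ((9 * D).primeFactors.erase 2).erase 3 = (D.primeFactors.erase 2).erase 3 := by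
    have h1 : (9 * D).primeFactors = {3} ∪ D.primeFactors := by
      rw [Nat.primeFactors_mul (by norm_num) D0, e, Nat.primeFactors_prime_pow (by norm_num) p3]
    rw [h1]
    ext p
    simp only [mem_erase, mem_union, mem_singleton]
    tauto
  rw [hp]
  by_cases h5 : Odd (D.factorization 2)
  · rw [if_pos h5, if_pos h5]
    refine Finset.prod_congr rfl fun l hl => ?_
    rw [mem_erase, mem_erase] at hl
    exact fac_sq (Nat.prime_of_mem_primeFactors hl.2.2) hl.1 D0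
  · rw [if_neg h5, if_neg h5]

theorem loc_eq {n D : ℕ} (hn : n % 3 = 2) (D0 : D ≠ 0) :
    loc n D = ((D.factorization 3 : ℤ) + 1) * lrest n D := by
  have p3 : Nat.Prime 3 := by norm_num
  have f3 : ∑ j ∈ range (D.factorization 3 + 1), (jacobiSym (-(n : ℤ)) 3) ^ j =
      (D.factorization 3 : ℤ) + 1 := by
    have h1 : jacobiSym (-(n : ℤ)) 3 = 1 := by
      rw [jacobiSym.mod_left]
      have h2 : (-(n : ℤ)) % ((3 : ℕ) : ℤ) = 1 := by
        push_cast
        omega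
      rw [h2]
      norm_num
    rw [h1]
    simp
  have hn3 : ¬ 3 ∣ n := by omega
  unfold loc lrest
  split_ifs with h5
  · by_cases h3 : 3 ∣ D
    · have h3m : 3 ∈ D.primeFactors.erase 2 := by
        rw [mem_erase]
        exact ⟨by norm_num, Nat.mem_primeFactors.2 ⟨p3, h3, D0⟩⟩
      rw [← Finset.mul_prod_erase _ _ h3m]
      have e2 : fac n D 3 = (D.factorization 3 : ℤ) + 1 := by
        unfold fac
        rw [if_neg hn3, f3]
      rw [e2]
    · have e1 : (D.primeFactors.erase 2).erase 3 = D.primeFactors.erase 2 := by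
        rw [Finset.erase_eq_of_notMem]
        rw [mem_erase]
        rintro ⟨_, h6⟩
        exact h3 (Nat.dvd_of_mem_primeFactors h6)
      rw [e1, Nat.factorization_eq_zero_of_not_dvd h3]
      simp
  · simp

theorem cpf3_loc : S_CPF3 := by
  intro n1 n2 b D hs hn8 hn8' hn3 hn3' hb hodd hD hDD
  have p3 : Nat.Prime 3 := by norm_num
  have q3 : Prime (3 : ℤ) := Int.prime_three
  rw [A.pcf n1 n2 b D hs hn8 hn8' hodd hD hDD, loc_eq hn3 hD.ne', loc3_eq]
  obtain ⟨t, ht⟩ := sq_three hb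
  obtain ⟨k1, hk1⟩ : ∃ k1, n1 = 3 * k1 + 2 := ⟨n1 / 3, by omega⟩
  obtain ⟨k2, hk2⟩ : ∃ k2, n2 = 3 * k2 + 2 := ⟨n2 / 3, by omega⟩
  have h3D : 3 ∣ D := by
    have : (3 : ℤ) ∣ D := by
      refine ⟨3 * k1 * k2 + 2 * k1 + 2 * k2 + 1 - t, ?_⟩
      rw [hDD, ht, hk1, hk2]
      push_cast
      ring
    exact_mod_cast this
  have v1 : 1 ≤ D.factorization 3 := (p3.dvd_iff_one_le_factorization hD.ne').1 h3D
  by_cases h9 : 9 ∣ D
  · obtain ⟨E, hE⟩ := h9
    have E0 : E ≠ 0 := by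
      rintro rfl
      omega
    have hc : b * (1 + 4 * (n1 : ℤ)) = 3 * (b * (3 + 4 * k1)) := by
      rw [hk1]
      push_cast
      ring
    set b' := b * (3 + 4 * (k1 : ℤ)) with hb'
    have key : (n1 : ℤ) * (n2 + 8 * b ^ 2 + 16 * b ^ 2 * n1) = 9 * (E + b' ^ 2) := by
      have h2 : (9 * E : ℤ) = n1 * n2 - b ^ 2 := by
        rw [← hDD, hE]
        push_cast
        ring
      linear_combination -h2 + (b * (1 + 4 * (n1 : ℤ)) + 3 * b') * hc
    have h9' : (9 : ℤ) ∣ n2 + 8 * b ^ 2 + 16 * b ^ 2 * n1 := by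
      have h1 : (9 : ℤ) ∣ n1 * (n2 + 8 * b ^ 2 + 16 * b ^ 2 * n1) := ⟨_, key⟩
      have h2 : IsCoprime (9 : ℤ) n1 := by
        have h3 : IsCoprime ((3 : ℤ)) n1 := (Prime.coprime_iff_not_dvd q3).2 (by omega)
        have : (9 : ℤ) = 3 ^ 2 := by norm_num
        rw [this]
        exact h3.pow_left
      exact h2.dvd_of_dvd_mul_left h1
    obtain ⟨y, hy⟩ := h9'
    rw [hy] at key
    have n10 : 0 < (n1 : ℤ) := by
      have := Nat.pos_of_ne_zero hs.ne_zero
      exact_mod_cast this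
    have key2 : (n1 : ℤ) * y = E + b' ^ 2 := by
      have : 9 * ((n1 : ℤ) * y) = 9 * (E + b' ^ 2) := by linear_combination key
      linarith
    have y0 : 0 ≤ y := by
      by_contra hneg
      push Not at hneg
      have h1 : (n1 : ℤ) * y < 0 := mul_neg_of_pos_of_neg n10 hneg
      rw [key2] at h1
      have h2 : (0 : ℤ) ≤ E := by positivity
      nlinarith [sq_nonneg b']
    obtain ⟨n3, rfl⟩ := Int.eq_ofNat_of_zero_le y0
    have hn38 : n3 % 8 = 3 := by
      have e : n2 + 8 * b ^ 2 + 16 * b ^ 2 * n1 = n2 + 8 * (b ^ 2 + 2 * b ^ 2 * n1) := by ring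
      rw [e] at hy
      generalize b ^ 2 + 2 * b ^ 2 * (n1 : ℤ) = X at hy
      change (n2 : ℤ) + 8 * X = 9 * (n3 : ℤ) at hy
      omega
    have hb'odd : Odd b' := by
      rw [hb']
      refine hodd.mul ?_
      exact ⟨2 * k1 + 1, by ring⟩
    rw [cpf3_eq hb hc hy.symm]
    have hDE : (E : ℤ) = n1 * n3 - b' ^ 2 := by
      have : (n1 : ℤ) * (n3 : ℤ) = E + b' ^ 2 := key2
      linarith
    rw [A.pcf n1 n3 _ E hs hn8 hn38 hb'odd (Nat.pos_of_ne_zero E0) hDE, loc_eq hn3 E0]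
    have hv : (D.factorization 3 : ℤ) = E.factorization 3 + 2 := by
      rw [hE, Nat.factorization_mul (by norm_num) E0]
      have e : 9 = 3 ^ 2 := by norm_num
      rw [Finsupp.add_apply, e, p3.factorization_pow]
      simp
      ring
    have hl : lrest n1 D = lrest n1 E := by
      rw [hE]
      exact lrest_sq E0
    rw [hv, hl]
    ring
  · rw [cpf3_zero hb hDD h9]
    have hv : D.factorization 3 = 1 := by
      have h1 : ¬ 2 ≤ D.factorization 3 := by
        intro h2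
        exact h9 ((p3.pow_dvd_iff_le_factorization hD.ne').2 h2)
      omega
    rw [hv]
    push_cast
    ring

theorem cp3_loc : S_CP3 := by
  intro n1 n2 b D hs hn8 hn8' hn3 hn3' hb hb16 hD hDD
  have hodd : Odd b := by
    rw [Int.odd_iff]
    obtain ⟨t, ht⟩ := hb16
    omega
  have h1 := cpf3_loc n1 n2 b D hs hn8 hn8' hn3 hn3' hb hodd hD hDD
  rw [cpf_cp (by omega) (by omega) hb16, cpf3_cp3 (by omega) (by omega) hb16] at h1
  push_cast at h1
  linarith

end Pool.Agent.Run7.h135.P24
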