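import Pool.Agent.Run7.h135.P24.V
import Pool.Agent.Run7.h135.P24.A.T5

/-!
# `X_0(24)`: the parity of the number of vectors
-/

set_option autoImplicit false

namespace Pool.Agent.Run7.h135.P24

theorem t_R : S_R := A.t_r rf_eq

end Pool.Agent.Run7.h135.P24
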