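import Pool.Agent.Run7.h135.P24.V

/-!
# `X_0(24)`: the relations of the pair counts with the Gross sums

`S_REL33`, `S_REL32`, `S_REL31`, `S_REL22`, `S_RELF`.
-/

set_option autoImplicit false

namespace Pool.Agent.Run7.h135.P24

open Finset
open Pool.Agent.N969.P15 (V3)
open Pool.Agent.Run7.h135.P24.A (mem_vef odd_coord ext3)

/-! ### vectors modulo `3` -/

/-- the sign of a residue class -/
def s3 (a : ZMod 3) : ℤ := if a = 0 then 0 else if a = 1 then 1 else -1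

/-- the vectors orthogonal to the four isotropic lines -/
def m0 (a b c : ZMod 3) : ℤ := if a + b + c = 0 then 1 else 0
def m1 (a b c : ZMod 3) : ℤ := if a + b - c = 0 then 1 else 0
def m2 (a b c : ZMod 3) : ℤ := if a - b + c = 0 then 1 else 0
def m3 (a b c : ZMod 3) : ℤ := if -a + b + c = 0 then 1 else 0

/-- the same with signs -/
def l0 (a b c : ZMod 3) : ℤ := if a + b + c = 0 then s3 (a - b) else 0
def l1 (a b c : ZMod 3) : ℤ := if a + b - c = 0 then s3 (a - b) else 0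
def l2 (a b c : ZMod 3) : ℤ := if a - b + c = 0 then s3 (a - c) else 0
def l3 (a b c : ZMod 3) : ℤ := if -a + b + c = 0 then s3 (b - c) else 0

theorem finA : ∀ a b c : ZMod 3, a * a + b * b + c * c = 0 → ¬ (a = 0 ∧ b = 0 ∧ c = 0) →
    ∀ a' b' c' : ZMod 3, a' * a' + b' * b' + c' * c' = 0 → ¬ (a' = 0 ∧ b' = 0 ∧ c' = 0) →
    (if a * a' + b * b' + c * c' = 0 then (1 : ℤ) else 0) = m0 a b c * m0 a' b' c' +
      m1 a b c * m1 a' b' c' + m2 a b c * m2 a' b' c' + m3 a b c * m3 a' b' c' := by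
  decide +kernel

theorem finB : ∀ a b c : ZMod 3, a * a + b * b + c * c = 0 → ¬ (a = 0 ∧ b = 0 ∧ c = 0) →
    m0 a b c + m1 a b c + m2 a b c + m3 a b c = 1 := by
  decide +kernel

theorem finC : ∀ a b c : ZMod 3, a * a + b * b + c * c = 0 → ¬ (a = 0 ∧ b = 0 ∧ c = 0) →
    ∀ a' b' c' : ZMod 3, a' * a' + b' * b' + c' * c' = 2 →
    (if a * a' + b * b' + c * c' = 0 then (1 : ℤ) else 0) = m0 a b c * m0 a' b' c' +
      m1 a b c * m1 a' b' c' + m2 a b c * m2 a' b' c' + m3 a b c * m3 a' b' c' := by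
  decide +kernel

theorem finD : ∀ a b c : ZMod 3, a * a + b * b + c * c = 2 →
    m0 a b c + m1 a b c + m2 a b c + m3 a b c = 2 := by
  decide +kernel

theorem finE : ∀ a b c : ZMod 3, a * a + b * b + c * c = 0 → ¬ (a = 0 ∧ b = 0 ∧ c = 0) →
    ∀ a' b' c' : ZMod 3, a' * a' + b' * b' + c' * c' = 1 → a * a' + b * b' + c * c' ≠ 0 := by
  decide +kernel

theorem finF : ∀ a b c : ZMod 3, a * a + b * b + c * c = 2 →
    ∀ a' b' c' : ZMod 3, a' * a' + b' * b' + c' * c' = 2 → ∀ r : ZMod 3, (r = 1 ∨ r = 2) →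
    (if a * a' + b * b' + c * c' = r then (2 : ℤ) * (1 + if (a + r * a' = 0 ∧ b + r * b' = 0 ∧
      c + r * c' = 0) then 1 else 0) else 0) = m0 a b c * m0 a' b' c' +
      m1 a b c * m1 a' b' c' + m2 a b c * m2 a' b' c' + m3 a b c * m3 a' b' c' - s3 r *
      (l0 a b c * l0 a' b' c' + l1 a b c * l1 a' b' c' + l2 a b c * l2 a' b' c' +
        l3 a b c * l3 a' b' c') := by
  decide +kernel

theorem finG : ∀ a b c : ZMod 3, l0 b a c = -l0 a b c ∧ l1 b a c = -l1 a b c ∧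
    l2 c b a = -l2 a b c ∧ l3 a c b = -l3 a b c ∧ m1 a c b = m2 a b c ∧ m2 b a c = m3 a b c ∧
    m0 a b (-c) = m1 a b c ∧ m0 a (-b) c = m2 a b c ∧ m0 (-a) b c = m3 a b c := by
  decide +kernel

theorem finH : ∀ a b c : ZMod 3, m0 (-a) (-b) (-c) = m0 a b c ∧ m1 (-a) (-b) (-c) = m1 a b c ∧
    m2 (-a) (-b) (-c) = m2 a b c ∧ m3 (-a) (-b) (-c) = m3 a b c ∧
    l0 (-a) (-b) (-c) = -l0 a b c ∧ l1 (-a) (-b) (-c) = -l1 a b c ∧
    l2 (-a) (-b) (-c) = -l2 a b c ∧ l3 (-a) (-b) (-c) = -l3 a b c := by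
  decide +kernel

/-- functions of the vectors modulo `3` -/
def fv (f : ZMod 3 → ZMod 3 → ZMod 3 → ℤ) (v : V3) : ℤ :=
  f ((v 0 : ℤ) : ZMod 3) ((v 1 : ℤ) : ZMod 3) ((v 2 : ℤ) : ZMod 3)

theorem ip_z3 (v w : V3) : ((ip v w : ℤ) : ZMod 3) =
    ((v 0 : ℤ) : ZMod 3) * ((w 0 : ℤ) : ZMod 3) + ((v 1 : ℤ) : ZMod 3) * ((w 1 : ℤ) : ZMod 3) +
      ((v 2 : ℤ) : ZMod 3) * ((w 2 : ℤ) : ZMod 3) := by
  unfold ip
  push_cast
  rfl

theorem dvd3 (x : ℤ) : (3 : ℤ) ∣ x ↔ ((x : ℤ) : ZMod 3) = 0 := by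
  have := ZMod.intCast_zmod_eq_zero_iff_dvd x 3
  exact this.symm

theorem cast3 {x : ℤ} (r : ℤ) (h : x % 3 = r % 3) : ((x : ℤ) : ZMod 3) = ((r : ℤ) : ZMod 3) := by
  have : (3 : ℤ) ∣ x - r := by omega
  rw [dvd3] at this
  push_cast at this
  exact sub_eq_zero.1 this

theorem nz3 {n : ℤ} (hn : ¬ (9 : ℤ) ∣ n) {v : V3} (hv : ip v v = n) :
    ¬ (((v 0 : ℤ) : ZMod 3) = 0 ∧ ((v 1 : ℤ) : ZMod 3) = 0 ∧ ((v 2 : ℤ) : ZMod 3) = 0) := by
  rintro ⟨h0, h1, h2⟩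
  rw [← dvd3] at h0 h1 h2
  obtain ⟨a, ha⟩ := h0
  obtain ⟨b, hb⟩ := h1
  obtain ⟨c, hc⟩ := h2
  apply hn
  refine ⟨a * a + b * b + c * c, ?_⟩
  rw [← hv]
  unfold ip
  rw [ha, hb, hc]
  ring

/-! ### the permutations of the coordinates -/

def sab (v : V3) : V3 := ![v 1, v 0, v 2]
def sac (v : V3) : V3 := ![v 2, v 1, v 0]
def sbc (v : V3) : V3 := ![v 0, v 2, v 1]

theorem mem_vec (n : ℕ) (v : V3) : v ∈ vec n ↔ ip v v = n ∧ One v := by
  rw [vec_eq, mem_filter, mem_vef]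

theorem ip_sab (v : V3) : ip (sab v) (sab v) = ip v v := by
  unfold ip sab
  simp only [Matrix.cons_val_zero, Matrix.cons_val_one, Matrix.cons_val]
  ring

theorem ip_sac (v : V3) : ip (sac v) (sac v) = ip v v := by
  unfold ip sac
  simp only [Matrix.cons_val_zero, Matrix.cons_val_one, Matrix.cons_val]
  ring

theorem ip_sbc (v : V3) : ip (sbc v) (sbc v) = ip v v := by
  unfold ip sbc
  simp only [Matrix.cons_val_zero, Matrix.cons_val_one, Matrix.cons_val]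
  ring

theorem ss_ab (v : V3) : sab (sab v) = v := ext3 rfl rfl rfl
theorem ss_ac (v : V3) : sac (sac v) = v := ext3 rfl rfl rfl
theorem ss_bc (v : V3) : sbc (sbc v) = v := ext3 rfl rfl rfl

theorem sum_inv {A : Finset V3} (s : V3 → V3) (hs : ∀ v, s (s v) = v) (hA : ∀ v ∈ A, s v ∈ A)
    (g : V3 → ℤ) : ∑ v ∈ A, g (s v) = ∑ v ∈ A, g v :=
  sum_nbij' s s hA hA (fun v _ => hs v) (fun v _ => hs v) fun _ _ => rfl

theorem vec_ab (n : ℕ) : ∀ v ∈ vec n, sab v ∈ vec n := by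
  intro v hv
  rw [mem_vec] at hv ⊢
  exact ⟨by rw [ip_sab]; exact hv.1, hv.2.2.1, hv.2.1, hv.2.2.2⟩

theorem vec_ac (n : ℕ) : ∀ v ∈ vec n, sac v ∈ vec n := by
  intro v hv
  rw [mem_vec] at hv ⊢
  exact ⟨by rw [ip_sac]; exact hv.1, hv.2.2.2, hv.2.2.1, hv.2.1⟩

theorem vec_bc (n : ℕ) : ∀ v ∈ vec n, sbc v ∈ vec n := by
  intro v hv
  rw [mem_vec] at hv ⊢
  exact ⟨by rw [ip_sbc]; exact hv.1, hv.2.1, hv.2.2.2, hv.2.2.1⟩

/-- the sums of the functions modulo `3` -/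
noncomputable def Sf (A : Finset V3) (f : ZMod 3 → ZMod 3 → ZMod 3 → ℤ) : ℤ := ∑ v ∈ A, fv f v

theorem N0_eq (n : ℤ) : Sf (vec n) m0 = rr0 n := by
  unfold Sf rr0
  rw [card_filter]
  push_cast
  refine sum_congr rfl fun v _ => ?_
  unfold fv m0
  have : (3 : ℤ) ∣ v 0 + v 1 + v 2 ↔
      ((v 0 : ℤ) : ZMod 3) + ((v 1 : ℤ) : ZMod 3) + ((v 2 : ℤ) : ZMod 3) = 0 := by
    rw [dvd3]
    push_cast
    rfl
  simp only [this]

theorem N12 (n : ℕ) : Sf (vec n) m2 = Sf (vec n) m1 := by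
  unfold Sf
  rw [← sum_inv sbc ss_bc (vec_bc n) (fv m1)]
  exact sum_congr rfl fun v _ => (finG _ _ _).2.2.2.2.1.symm

theorem N13 (n : ℕ) : Sf (vec n) m3 = Sf (vec n) m1 := by
  rw [← N12]
  unfold Sf
  rw [← sum_inv sab ss_ab (vec_ab n) (fv m2)]
  exact sum_congr rfl fun v _ => (finG _ _ _).2.2.2.2.2.1.symm

theorem neg_zero_of {x : ℤ} (h : x = -x) : x = 0 := by omega

theorem S0_zero (n : ℕ) : Sf (vec n) l0 = 0 := by
  apply neg_zero_of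
  unfold Sf
  rw [← sum_neg_distrib]
  conv_lhs => rw [← sum_inv sab ss_ab (vec_ab n) (fv l0)]
  exact sum_congr rfl fun v _ => (finG _ _ _).1

theorem S1_zero (n : ℕ) : Sf (vec n) l1 = 0 := by
  apply neg_zero_of
  unfold Sf
  rw [← sum_neg_distrib]
  conv_lhs => rw [← sum_inv sab ss_ab (vec_ab n) (fv l1)]
  exact sum_congr rfl fun v _ => (finG _ _ _).2.1

theorem S2_zero (n : ℕ) : Sf (vec n) l2 = 0 := by
  apply neg_zero_of
  unfold Sf
  rw [← sum_neg_distrib]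
  conv_lhs => rw [← sum_inv sac ss_ac (vec_ac n) (fv l2)]
  exact sum_congr rfl fun v _ => (finG _ _ _).2.2.1

theorem S3_zero (n : ℕ) : Sf (vec n) l3 = 0 := by
  apply neg_zero_of
  unfold Sf
  rw [← sum_neg_distrib]
  conv_lhs => rw [← sum_inv sbc ss_bc (vec_bc n) (fv l3)]
  exact sum_congr rfl fun v _ => (finG _ _ _).2.2.2.1

theorem norm3 {v : V3} {n : ℤ} (hv : ip v v = n) (r : ℤ) (h : n % 3 = r % 3) :
    ((v 0 : ℤ) : ZMod 3) * ((v 0 : ℤ) : ZMod 3) + ((v 1 : ℤ) : ZMod 3) * ((v 1 : ℤ) : ZMod 3) +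
      ((v 2 : ℤ) : ZMod 3) * ((v 2 : ℤ) : ZMod 3) = ((r : ℤ) : ZMod 3) := by
  rw [← ip_z3, hv]
  exact cast3 r h

theorem rr_zero {n : ℕ} (hn : 3 ∣ n) (hn9 : ¬ 9 ∣ n) : rr n = rr0 n + 3 * Sf (vec n) m1 := by
  have h : Sf (vec n) m0 + Sf (vec n) m1 + Sf (vec n) m2 + Sf (vec n) m3 = rr n := by
    unfold Sf rr
    rw [← sum_add_distrib, ← sum_add_distrib, ← sum_add_distrib, card_eq_sum_ones]
    push_cast
    refine sum_congr rfl fun v hv => ?_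
    rw [mem_vec] at hv
    exact finB _ _ _ (norm3 hv.1 0 (by omega)) (nz3 (by omega) hv.1)
  rw [N12, N13, N0_eq] at h
  linarith

theorem rr_two {n : ℕ} (hn : n % 3 = 2) : 2 * rr n = rr0 n + 3 * Sf (vec n) m1 := by
  have h : Sf (vec n) m0 + Sf (vec n) m1 + Sf (vec n) m2 + Sf (vec n) m3 = 2 * rr n := by
    unfold Sf rr
    rw [← sum_add_distrib, ← sum_add_distrib, ← sum_add_distrib, card_eq_sum_ones]
    push_cast
    rw [mul_sum]
    refine sum_congr rfl fun v hv => ?_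
    rw [mem_vec] at hv
    rw [mul_one]
    exact finD _ _ _ (norm3 hv.1 2 (by omega))
  rw [N12, N13, N0_eq] at h
  linarith

theorem cp0_eq (n1 n2 : ℤ) : (cp0 n1 n2 : ℤ) =
    ∑ v ∈ vec n1, ∑ w ∈ vec n2, if ((ip v w : ℤ) : ZMod 3) = 0 then (1 : ℤ) else 0 := by
  unfold cp0
  rw [card_filter, sum_product]
  push_cast
  refine sum_congr rfl fun v _ => sum_congr rfl fun w _ => ?_
  simp only [dvd3]

/-- the sum of the numbers of common lines -/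
theorem sum_M (A B : Finset V3) : ∑ v ∈ A, ∑ w ∈ B, (fv m0 v * fv m0 w + fv m1 v * fv m1 w +
    fv m2 v * fv m2 w + fv m3 v * fv m3 w) = Sf A m0 * Sf B m0 + Sf A m1 * Sf B m1 +
    Sf A m2 * Sf B m2 + Sf A m3 * Sf B m3 := by
  unfold Sf
  simp only [sum_add_distrib, sum_mul_sum]

theorem rel33 : S_REL33 := by
  intro n1 n2 h1 h1' h2 h2'
  have key : (cp0 n1 n2 : ℤ) = rr0 n1 * rr0 n2 + 3 * (Sf (vec n1) m1 * Sf (vec n2) m1) := by
    have e : (cp0 n1 n2 : ℤ) = ∑ v ∈ vec n1, ∑ w ∈ vec n2, (fv m0 v * fv m0 w + fv m1 v * fv m1 w +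
        fv m2 v * fv m2 w + fv m3 v * fv m3 w) := by
      rw [cp0_eq]
      refine sum_congr rfl fun v hv => sum_congr rfl fun w hw => ?_
      rw [mem_vec] at hv hw
      rw [ip_z3]
      exact finA _ _ _ (norm3 hv.1 0 (by omega)) (nz3 (by omega) hv.1) _ _ _
        (norm3 hw.1 0 (by omega)) (nz3 (by omega) hw.1)
    rw [e, sum_M, N0_eq, N0_eq, N12, N12, N13, N13]
    ring
  have c1 : cc (n1 : ℤ) = rr n1 - 4 * rr0 n1 := by
    unfold cc
    rw [if_pos (by omega)]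
  have c2 : cc (n2 : ℤ) = rr n2 - 4 * rr0 n2 := by
    unfold cc
    rw [if_pos (by omega)]
  rw [key, c1, c2, rr_zero h1 h1', rr_zero h2 h2']
  ring

theorem rel32 : S_REL32 := by
  intro n1 n2 h1 h1' h2
  have key : (cp0 n1 n2 : ℤ) = rr0 n1 * rr0 n2 + 3 * (Sf (vec n1) m1 * Sf (vec n2) m1) := by
    have e : (cp0 n1 n2 : ℤ) = ∑ v ∈ vec n1, ∑ w ∈ vec n2, (fv m0 v * fv m0 w + fv m1 v * fv m1 w +
        fv m2 v * fv m2 w + fv m3 v * fv m3 w) := by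
      rw [cp0_eq]
      refine sum_congr rfl fun v hv => sum_congr rfl fun w hw => ?_
      rw [mem_vec] at hv hw
      rw [ip_z3]
      exact finC _ _ _ (norm3 hv.1 0 (by omega)) (nz3 (by omega) hv.1) _ _ _
        (norm3 hw.1 2 (by omega))
    rw [e, sum_M, N0_eq, N0_eq, N12, N12, N13, N13]
    ring
  have c1 : cc (n1 : ℤ) = rr n1 - 4 * rr0 n1 := by
    unfold cc
    rw [if_pos (by omega)]
  have c2 : cc (n2 : ℤ) = rr n2 - 2 * rr0 n2 := by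
    unfold cc
    rw [if_neg (by omega)]
  have e1 := rr_zero h1 h1'
  have e2 := rr_two h2
  rw [key, c1, c2, e1]
  linear_combination (-6 * Sf (vec n1) m1) * e2

theorem rel31 : S_REL31 := by
  intro n1 n2 h1 h1' h2
  unfold cp0
  rw [card_eq_zero, filter_eq_empty_iff]
  rintro ⟨v, w⟩ hvw h3
  rw [mem_product, mem_vec, mem_vec] at hvw
  obtain ⟨hv, hw⟩ := hvw
  simp only at hv hw h3
  rw [dvd3, ip_z3] at h3
  exact finE _ _ _ (norm3 hv.1 0 (by omega)) (nz3 (by omega) hv.1) _ _ _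
    (norm3 hw.1 1 (by omega)) h3

/-! ### the sums over the inner products -/

/-- the weight of a pair -/
def wt (F : Finset ℤ) (v w : V3) : ℤ :=
  if ip v w ∈ F then 1 + (if ∀ i, (3 : ℤ) ∣ v i + ip v w * w i then 1 else 0) else 0

theorem sum_wt (A B : Finset V3) (F : Finset ℤ) :
    ∑ b ∈ F, ((((A ×ˢ B).filter fun q => ip q.1 q.2 = b).card : ℤ) +
      ((A ×ˢ B).filter fun q => ip q.1 q.2 = b ∧ ∀ i, (3 : ℤ) ∣ q.1 i + b * q.2 i).card) =
    ∑ v ∈ A, ∑ w ∈ B, wt F v w := by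
  have h1 : ∀ b : ℤ, ((((A ×ˢ B).filter fun q => ip q.1 q.2 = b).card : ℤ) +
      ((A ×ˢ B).filter fun q => ip q.1 q.2 = b ∧ ∀ i, (3 : ℤ) ∣ q.1 i + b * q.2 i).card) =
      ∑ q ∈ A ×ˢ B, if ip q.1 q.2 = b then
        (1 + (if ∀ i, (3 : ℤ) ∣ q.1 i + ip q.1 q.2 * q.2 i then (1 : ℤ) else 0)) else 0 := by
    intro b
    rw [card_filter, card_filter]
    push_cast
    rw [← sum_add_distrib]
    refine sum_congr rfl fun q _ => ?_
    by_cases h : ip q.1 q.2 = b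
    · rw [if_pos h, if_pos h, h]
      simp only [true_and]
    · rw [if_neg h, if_neg h, if_neg (fun h' => h h'.1)]
      rfl
  simp only [h1]
  rw [sum_comm, sum_product]
  refine sum_congr rfl fun v _ => sum_congr rfl fun w _ => ?_
  unfold wt
  rw [sum_ite_eq]

theorem cauchy {v w : V3} {n1 n2 B : ℤ} (hv : ip v v = n1) (hw : ip w w = n2)
    (hB : n1 * n2 < B ^ 2) (hB0 : 0 < B) : -B < ip v w ∧ ip v w < B := by
  have h : ip v w ^ 2 ≤ n1 * n2 := by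
    have e : ip v v * ip w w - ip v w ^ 2 = (v 1 * w 2 - v 2 * w 1) ^ 2 +
        (v 2 * w 0 - v 0 * w 2) ^ 2 + (v 0 * w 1 - v 1 * w 0) ^ 2 := by
      unfold ip
      ring
    rw [hv, hw] at e
    nlinarith [sq_nonneg (v 1 * w 2 - v 2 * w 1), sq_nonneg (v 2 * w 0 - v 0 * w 2),
      sq_nonneg (v 0 * w 1 - v 1 * w 0)]
  exact abs_lt.1 (abs_lt_of_sq_lt_sq (lt_of_le_of_lt h hB) hB0.le)

/-- the weight as a number of common lines -/
theorem wt_eq {n1 n2 B : ℤ} (h1 : n1 % 3 = 2) (h2 : n2 % 3 = 2) (hB : n1 * n2 < B ^ 2)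
    (hB0 : 0 < B) {r : ℤ} (hr : r = 1 ∨ r = 2) (P : ℤ → Prop) [DecidablePred P] {v w : V3}
    (hv : ip v v = n1) (hw : ip w w = n2) :
    2 * wt ((Ioo (-B) B).filter fun b => b % 3 = r ∧ P b) v w =
      (if P (ip v w) then 1 else 0) * (fv m0 v * fv m0 w + fv m1 v * fv m1 w +
      fv m2 v * fv m2 w + fv m3 v * fv m3 w - s3 ((r : ℤ) : ZMod 3) *
      (fv l0 v * fv l0 w + fv l1 v * fv l1 w + fv l2 v * fv l2 w + fv l3 v * fv l3 w)) := by
  obtain ⟨c1, c2⟩ := cauchy hv hw hB hB0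
  have hF := finF _ _ _ (norm3 hv 2 (by omega)) _ _ _ (norm3 hw 2 (by omega)) ((r : ℤ) : ZMod 3)
    (by
      rcases hr with rfl | rfl
      · left
        rfl
      · right
        rfl)
  unfold fv
  rw [← hF, ← ip_z3]
  unfold wt
  have hm : (ip v w ∈ (Ioo (-B) B).filter fun b => b % 3 = r ∧ P b) ↔
      ip v w % 3 = r ∧ P (ip v w) := by
    rw [mem_filter, mem_Ioo]
    exact ⟨fun h => h.2, fun h => ⟨⟨c1, c2⟩, h⟩⟩
  have hr3 : ((ip v w : ℤ) : ZMod 3) = ((r : ℤ) : ZMod 3) ↔ ip v w % 3 = r := by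
    constructor
    · intro h
      have h4 : (3 : ℤ) ∣ ip v w - r := by
        rw [dvd3]
        push_cast
        rw [h, sub_self]
      rcases hr with rfl | rfl <;> omega
    · intro h
      exact cast3 r (by rcases hr with rfl | rfl <;> omega)
  by_cases hP : P (ip v w)
  · rw [if_pos hP, one_mul]
    by_cases h : ip v w % 3 = r
    · rw [if_pos (hm.2 ⟨h, hP⟩), if_pos (hr3.2 h)]
      congr 2
      have hi : (∀ i, (3 : ℤ) ∣ v i + ip v w * w i) ↔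
          (((v 0 : ℤ) : ZMod 3) + ((r : ℤ) : ZMod 3) * ((w 0 : ℤ) : ZMod 3) = 0 ∧
          ((v 1 : ℤ) : ZMod 3) + ((r : ℤ) : ZMod 3) * ((w 1 : ℤ) : ZMod 3) = 0 ∧
          ((v 2 : ℤ) : ZMod 3) + ((r : ℤ) : ZMod 3) * ((w 2 : ℤ) : ZMod 3) = 0) := by
        rw [Fin.forall_fin_succ, Fin.forall_fin_two]
        show ((3 : ℤ) ∣ v 0 + ip v w * w 0) ∧ ((3 : ℤ) ∣ v 1 + ip v w * w 1) ∧
          ((3 : ℤ) ∣ v 2 + ip v w * w 2) ↔ _
        rw [dvd3, dvd3, dvd3]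
        push_cast
        rw [hr3.2 h]
      simp only [hi]
    · rw [if_neg (fun h' => h (hm.1 h').1), if_neg (fun h' => h (hr3.1 h')), mul_zero]
  · rw [if_neg hP, zero_mul, if_neg (fun h' => hP (hm.1 h').2), mul_zero]

/-- the sum with signs -/
theorem sum_L (A B : Finset V3) : ∑ v ∈ A, ∑ w ∈ B, (fv l0 v * fv l0 w + fv l1 v * fv l1 w +
    fv l2 v * fv l2 w + fv l3 v * fv l3 w) = Sf A l0 * Sf B l0 + Sf A l1 * Sf B l1 +
    Sf A l2 * Sf B l2 + Sf A l3 * Sf B l3 := by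
  unfold Sf
  simp only [sum_add_distrib, sum_mul_sum]

theorem rel22 : S_REL22 := by
  intro n1 n2 h1 h2 r3 hr B hB hB0
  have hf : (Ioo (-B) B).filter (fun b : ℤ => b % 3 = r3) =
      (Ioo (-B) B).filter (fun b : ℤ => b % 3 = r3 ∧ True) := by
    simp only [and_true]
  have e : 2 * ∑ b ∈ (Ioo (-B) B).filter (fun b : ℤ => b % 3 = r3),
      ((cp n1 b n2 : ℤ) + cp3 n1 b n2) = rr0 n1 * rr0 n2 + 3 * (Sf (vec n1) m1 * Sf (vec n2) m1) := by
    unfold cp cp3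
    rw [sum_wt, mul_sum, hf]
    have e1 : ∑ v ∈ vec n1, 2 * ∑ w ∈ vec n2,
        wt ((Ioo (-B) B).filter (fun b : ℤ => b % 3 = r3 ∧ True)) v w =
        ∑ v ∈ vec n1, ∑ w ∈ vec n2, (fv m0 v * fv m0 w + fv m1 v * fv m1 w +
          fv m2 v * fv m2 w + fv m3 v * fv m3 w) - s3 ((r3 : ℤ) : ZMod 3) *
        ∑ v ∈ vec n1, ∑ w ∈ vec n2, (fv l0 v * fv l0 w + fv l1 v * fv l1 w + fv l2 v * fv l2 w +
          fv l3 v * fv l3 w) := by
      rw [mul_sum, ← sum_sub_distrib]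
      refine sum_congr rfl fun v hv => ?_
      rw [mul_sum, mul_sum, ← sum_sub_distrib]
      refine sum_congr rfl fun w hw => ?_
      rw [mem_vec] at hv hw
      rw [wt_eq (by omega) (by omega) hB hB0 hr (fun _ => True) hv.1 hw.1, if_pos trivial, one_mul]
    rw [e1, sum_M, sum_L, N0_eq, N0_eq, N12, N12, N13, N13, S0_zero, S1_zero, S2_zero, S3_zero]
    ring
  have c1 : cc (n1 : ℤ) = rr n1 - 2 * rr0 n1 := by
    unfold cc
    rw [if_neg (by omega)]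
  have c2 : cc (n2 : ℤ) = rr n2 - 2 * rr0 n2 := by
    unfold cc
    rw [if_neg (by omega)]
  have e1 := rr_two h1
  have e2 := rr_two h2
  rw [c1, c2]
  linear_combination 3 * e + (-2 * rr n2 + rr0 n2) * e1 - 3 * Sf (vec n1) m1 * e2

/-! ### all vectors -/

/-- the sign modulo `4` -/
def c4 (x : ℤ) : ℤ := if x % 4 = 1 then 1 else -1

theorem c4_neg {x : ℤ} (h : x % 2 = 1) : c4 (-x) = -c4 x := by
  unfold c4
  by_cases h1 : x % 4 = 1
  · rw [if_pos h1, if_neg (by omega)]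
  · rw [if_neg h1, if_pos (by omega)]
    norm_num

/-- the product of the signs -/
def p4 (v : V3) : ℤ := c4 (v 0) * c4 (v 1) * c4 (v 2)

theorem c4_mul {x y : ℤ} (hx : x % 2 = 1) (hy : y % 2 = 1) :
    (c4 x * c4 y = 1 ∧ x * y % 4 = 1) ∨ (c4 x * c4 y = -1 ∧ x * y % 4 = 3) := by
  have h : x * y % 4 = ((x % 4) * (y % 4)) % 4 := Int.mul_emod x y 4
  unfold c4
  by_cases h1 : x % 4 = 1
  · by_cases h2 : y % 4 = 1
    · left
      rw [if_pos h1, if_pos h2, h, h1, h2]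
      norm_num
    · right
      have h2' : y % 4 = 3 := by omega
      rw [if_pos h1, if_neg h2, h, h1, h2']
      norm_num
  · have h1' : x % 4 = 3 := by omega
    by_cases h2 : y % 4 = 1
    · right
      rw [if_neg h1, if_pos h2, h, h1', h2]
      norm_num
    · left
      have h2' : y % 4 = 3 := by omega
      rw [if_neg h1, if_neg h2, h, h1', h2']
      norm_num

theorem p4_mul {v w : V3} (hv : ∀ i, v i % 2 = 1) (hw : ∀ i, w i % 2 = 1) :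
    2 * (if ip v w % 4 = 3 then (1 : ℤ) else 0) = 1 + p4 v * p4 w := by
  have e : p4 v * p4 w = (c4 (v 0) * c4 (w 0)) * (c4 (v 1) * c4 (w 1)) * (c4 (v 2) * c4 (w 2)) := by
    unfold p4
    ring
  rw [e]
  have hi : ip v w = v 0 * w 0 + v 1 * w 1 + v 2 * w 2 := rfl
  rcases c4_mul (hv 0) (hw 0) with ⟨a, a'⟩ | ⟨a, a'⟩ <;>
    rcases c4_mul (hv 1) (hw 1) with ⟨b, b'⟩ | ⟨b, b'⟩ <;>
    rcases c4_mul (hv 2) (hw 2) with ⟨c, c'⟩ | ⟨c, c'⟩ <;>
    rw [a, b, c] <;>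
    (first
      | (rw [if_pos (by omega)]; norm_num)
      | (rw [if_neg (by omega)]; norm_num))

theorem mem_neg {n : ℕ} : ∀ v ∈ vef n, -v ∈ vef n := by
  intro v hv
  rw [mem_vef] at hv ⊢
  rw [← hv]
  show ip (-v) (-v) = ip v v
  unfold ip
  simp only [Pi.neg_apply]
  ring

def na (v : V3) : V3 := ![-v 0, v 1, v 2]
def nb (v : V3) : V3 := ![v 0, -v 1, v 2]
def nc (v : V3) : V3 := ![v 0, v 1, -v 2]

theorem nna (v : V3) : na (na v) = v := ext3 (neg_neg _) rfl rfl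
theorem nnb (v : V3) : nb (nb v) = v := ext3 rfl (neg_neg _) rfl
theorem nnc (v : V3) : nc (nc v) = v := ext3 rfl rfl (neg_neg _)

theorem vef_na (n : ℕ) : ∀ v ∈ vef n, na v ∈ vef n := by
  intro v hv
  rw [mem_vef] at hv ⊢
  rw [← hv]
  show ip (na v) (na v) = ip v v
  unfold ip na
  simp only [Matrix.cons_val_zero, Matrix.cons_val_one, Matrix.cons_val]
  ring

theorem vef_nb (n : ℕ) : ∀ v ∈ vef n, nb v ∈ vef n := by
  intro v hv
  rw [mem_vef] at hv ⊢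
  rw [← hv]
  show ip (nb v) (nb v) = ip v v
  unfold ip nb
  simp only [Matrix.cons_val_zero, Matrix.cons_val_one, Matrix.cons_val]
  ring

theorem vef_nc (n : ℕ) : ∀ v ∈ vef n, nc v ∈ vef n := by
  intro v hv
  rw [mem_vef] at hv ⊢
  rw [← hv]
  show ip (nc v) (nc v) = ip v v
  unfold ip nc
  simp only [Matrix.cons_val_zero, Matrix.cons_val_one, Matrix.cons_val]
  ring

theorem vef_ab (n : ℕ) : ∀ v ∈ vef n, sab v ∈ vef n := by
  intro v hv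
  rw [mem_vef] at hv ⊢
  exact (ip_sab v).trans hv

theorem vef_ac (n : ℕ) : ∀ v ∈ vef n, sac v ∈ vef n := by
  intro v hv
  rw [mem_vef] at hv ⊢
  exact (ip_sac v).trans hv

theorem vef_bc (n : ℕ) : ∀ v ∈ vef n, sbc v ∈ vef n := by
  intro v hv
  rw [mem_vef] at hv ⊢
  exact (ip_sbc v).trans hv

theorem F01 (n : ℕ) : Sf (vef n) m1 = Sf (vef n) m0 := by
  unfold Sf
  rw [← sum_inv nc nnc (vef_nc n) (fv m0)]
  refine sum_congr rfl fun v _ => ?_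
  have h := (finG ((v 0 : ℤ) : ZMod 3) ((v 1 : ℤ) : ZMod 3) ((v 2 : ℤ) : ZMod 3)).2.2.2.2.2.2.1
  unfold fv
  rw [← h]
  show _ = m0 ((v 0 : ℤ) : ZMod 3) ((v 1 : ℤ) : ZMod 3) ((-v 2 : ℤ) : ZMod 3)
  push_cast
  rfl

theorem F02 (n : ℕ) : Sf (vef n) m2 = Sf (vef n) m0 := by
  unfold Sf
  rw [← sum_inv nb nnb (vef_nb n) (fv m0)]
  refine sum_congr rfl fun v _ => ?_
  have h := (finG ((v 0 : ℤ) : ZMod 3) ((v 1 : ℤ) : ZMod 3) ((v 2 : ℤ) : ZMod 3)).2.2.2.2.2.2.2.1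
  unfold fv
  rw [← h]
  show _ = m0 ((v 0 : ℤ) : ZMod 3) ((-v 1 : ℤ) : ZMod 3) ((v 2 : ℤ) : ZMod 3)
  push_cast
  rfl

theorem F03 (n : ℕ) : Sf (vef n) m3 = Sf (vef n) m0 := by
  unfold Sf
  rw [← sum_inv na nna (vef_na n) (fv m0)]
  refine sum_congr rfl fun v _ => ?_
  have h := (finG ((v 0 : ℤ) : ZMod 3) ((v 1 : ℤ) : ZMod 3) ((v 2 : ℤ) : ZMod 3)).2.2.2.2.2.2.2.2
  unfold fv
  rw [← h]
  show _ = m0 ((-v 0 : ℤ) : ZMod 3) ((v 1 : ℤ) : ZMod 3) ((v 2 : ℤ) : ZMod 3)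
  push_cast
  rfl

theorem rf_two {n : ℕ} (hn : n % 3 = 2) : rf n = 2 * Sf (vef n) m0 := by
  have h : Sf (vef n) m0 + Sf (vef n) m1 + Sf (vef n) m2 + Sf (vef n) m3 = 2 * rf n := by
    unfold Sf rf
    rw [← sum_add_distrib, ← sum_add_distrib, ← sum_add_distrib, card_eq_sum_ones]
    push_cast
    rw [mul_sum]
    refine sum_congr rfl fun v hv => ?_
    rw [mem_vef] at hv
    rw [mul_one]
    exact finD _ _ _ (norm3 hv 2 (by omega))
  rw [F01, F02, F03] at h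
  linarith

/-- the sums with the sign modulo `4` -/
noncomputable def Sp (A : Finset V3) (f : ZMod 3 → ZMod 3 → ZMod 3 → ℤ) : ℤ :=
  ∑ v ∈ A, fv f v * p4 v

theorem odd_vef {n : ℕ} (hn : n % 4 = 3) {v : V3} (hv : v ∈ vef n) : ∀ i, v i % 2 = 1 := by
  rw [mem_vef] at hv
  exact odd_all (by
    show ip v v % 4 = 3
    rw [hv]
    omega)

theorem fv_neg (f : ZMod 3 → ZMod 3 → ZMod 3 → ℤ) (v : V3) : fv f (-v) =
    f (-((v 0 : ℤ) : ZMod 3)) (-((v 1 : ℤ) : ZMod 3)) (-((v 2 : ℤ) : ZMod 3)) := by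
  unfold fv
  simp only [Pi.neg_apply]
  push_cast
  rfl

theorem p4_neg {v : V3} (h : ∀ i, v i % 2 = 1) : p4 (-v) = -p4 v := by
  unfold p4
  simp only [Pi.neg_apply]
  rw [c4_neg (h 0), c4_neg (h 1), c4_neg (h 2)]
  ring

theorem sum_odd {n : ℕ} (f : ZMod 3 → ZMod 3 → ZMod 3 → ℤ)
    (hf : ∀ a b c, f (-a) (-b) (-c) = -f a b c) : Sf (vef n) f = 0 := by
  apply neg_zero_of
  unfold Sf
  rw [← sum_neg_distrib]
  conv_lhs => rw [← sum_inv (fun v => -v) neg_neg mem_neg (fv f)]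
  refine sum_congr rfl fun v _ => ?_
  rw [fv_neg, hf]
  rfl

theorem sum_even_p {n : ℕ} (hn : n % 4 = 3) (f : ZMod 3 → ZMod 3 → ZMod 3 → ℤ)
    (hf : ∀ a b c, f (-a) (-b) (-c) = f a b c) : Sp (vef n) f = 0 := by
  apply neg_zero_of
  unfold Sp
  rw [← sum_neg_distrib]
  conv_lhs => rw [← sum_inv (fun v => -v) neg_neg mem_neg (fun v => fv f v * p4 v)]
  refine sum_congr rfl fun v hv => ?_
  show fv f (-v) * p4 (-v) = -(fv f v * p4 v)
  rw [fv_neg, hf, p4_neg (odd_vef hn hv)]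
  show fv f v * -p4 v = _
  ring

theorem sum_swap_p {n : ℕ} (f : ZMod 3 → ZMod 3 → ZMod 3 → ℤ) (s : V3 → V3)
    (hs : ∀ v, s (s v) = v) (hA : ∀ v ∈ vef n, s v ∈ vef n) (hf : ∀ v, fv f (s v) = -fv f v)
    (hp : ∀ v, p4 (s v) = p4 v) : Sp (vef n) f = 0 := by
  apply neg_zero_of
  unfold Sp
  rw [← sum_neg_distrib]
  conv_lhs => rw [← sum_inv s hs hA (fun v => fv f v * p4 v)]
  refine sum_congr rfl fun v hv => ?_
  show fv f (s v) * p4 (s v) = -(fv f v * p4 v)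
  rw [hf, hp]
  ring

theorem p4_ab (v : V3) : p4 (sab v) = p4 v := by
  show c4 (v 1) * c4 (v 0) * c4 (v 2) = c4 (v 0) * c4 (v 1) * c4 (v 2)
  ring

theorem p4_ac (v : V3) : p4 (sac v) = p4 v := by
  show c4 (v 2) * c4 (v 1) * c4 (v 0) = c4 (v 0) * c4 (v 1) * c4 (v 2)
  ring

theorem p4_bc (v : V3) : p4 (sbc v) = p4 v := by
  show c4 (v 0) * c4 (v 2) * c4 (v 1) = c4 (v 0) * c4 (v 1) * c4 (v 2)
  ring

/-- the sum with the sign modulo `4` -/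
theorem sum_P (A B : Finset V3) (f0 f1 f2 f3 : ZMod 3 → ZMod 3 → ZMod 3 → ℤ) :
    ∑ v ∈ A, ∑ w ∈ B, (fv f0 v * fv f0 w + fv f1 v * fv f1 w +
    fv f2 v * fv f2 w + fv f3 v * fv f3 w) * (1 + p4 v * p4 w) =
    (Sf A f0 * Sf B f0 + Sf A f1 * Sf B f1 + Sf A f2 * Sf B f2 + Sf A f3 * Sf B f3) +
    (Sp A f0 * Sp B f0 + Sp A f1 * Sp B f1 + Sp A f2 * Sp B f2 + Sp A f3 * Sp B f3) := by
  have e : ∀ v w : V3, (fv f0 v * fv f0 w + fv f1 v * fv f1 w +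
      fv f2 v * fv f2 w + fv f3 v * fv f3 w) * (1 + p4 v * p4 w) =
      (fv f0 v * fv f0 w + fv f1 v * fv f1 w + fv f2 v * fv f2 w + fv f3 v * fv f3 w) +
      ((fv f0 v * p4 v) * (fv f0 w * p4 w) + (fv f1 v * p4 v) * (fv f1 w * p4 w) +
        (fv f2 v * p4 v) * (fv f2 w * p4 w) + (fv f3 v * p4 v) * (fv f3 w * p4 w)) := by
    intro v w
    ring
  simp only [e]
  unfold Sf Sp
  simp only [sum_add_distrib, sum_mul_sum]

theorem relf : S_RELF := by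
  intro n h8 h3 B hB
  have h4 : n % 4 = 3 := by omega
  have hB2 : (n : ℤ) * n < B ^ 2 := by nlinarith
  have hB0 : 0 < B := by omega
  have e : 4 * ∑ b ∈ (Ioo (-B) B).filter (fun b : ℤ => b % 3 = 1 ∧ b % 4 = 3),
      ((cpf n b n : ℤ) + cpf3 n b n) =
      ∑ v ∈ vef n, ∑ w ∈ vef n, (fv m0 v * fv m0 w + fv m1 v * fv m1 w +
          fv m2 v * fv m2 w + fv m3 v * fv m3 w) * (1 + p4 v * p4 w) -
        ∑ v ∈ vef n, ∑ w ∈ vef n, (fv l0 v * fv l0 w + fv l1 v * fv l1 w + fv l2 v * fv l2 w +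
          fv l3 v * fv l3 w) * (1 + p4 v * p4 w) := by
    unfold cpf cpf3
    rw [sum_wt, mul_sum, ← sum_sub_distrib]
    refine sum_congr rfl fun v hv => ?_
    rw [mul_sum, ← sum_sub_distrib]
    refine sum_congr rfl fun w hw => ?_
    have ov := odd_vef h4 hv
    have ow := odd_vef h4 hw
    rw [mem_vef] at hv hw
    have h := wt_eq (by omega) (by omega) hB2 hB0 (Or.inl rfl) (fun b => b % 4 = 3)
      (v := v) (w := w) hv hw
    have hp := p4_mul ov ow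
    have hs : s3 (((1 : ℤ) : ℤ) : ZMod 3) = 1 := by decide
    rw [hs] at h
    rw [← hp]
    linear_combination 2 * h
  have hl0 : Sf (vef n) l0 = 0 := sum_odd l0 fun a b c => (finH a b c).2.2.2.2.1
  have hl1 : Sf (vef n) l1 = 0 := sum_odd l1 fun a b c => (finH a b c).2.2.2.2.2.1
  have hl2 : Sf (vef n) l2 = 0 := sum_odd l2 fun a b c => (finH a b c).2.2.2.2.2.2.1
  have hl3 : Sf (vef n) l3 = 0 := sum_odd l3 fun a b c => (finH a b c).2.2.2.2.2.2.2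
  have hm0 : Sp (vef n) m0 = 0 := sum_even_p h4 m0 fun a b c => (finH a b c).1
  have hm1 : Sp (vef n) m1 = 0 := sum_even_p h4 m1 fun a b c => (finH a b c).2.1
  have hm2 : Sp (vef n) m2 = 0 := sum_even_p h4 m2 fun a b c => (finH a b c).2.2.1
  have hm3 : Sp (vef n) m3 = 0 := sum_even_p h4 m3 fun a b c => (finH a b c).2.2.2.1
  have hk0 : Sp (vef n) l0 = 0 := sum_swap_p l0 sab ss_ab (vef_ab n)
    (fun v => (finG _ _ _).1) p4_ab
  have hk1 : Sp (vef n) l1 = 0 := sum_swap_p l1 sab ss_ab (vef_ab n)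
    (fun v => (finG _ _ _).2.1) p4_ab
  have hk2 : Sp (vef n) l2 = 0 := sum_swap_p l2 sac ss_ac (vef_ac n)
    (fun v => (finG _ _ _).2.2.1) p4_ac
  have hk3 : Sp (vef n) l3 = 0 := sum_swap_p l3 sbc ss_bc (vef_bc n)
    (fun v => (finG _ _ _).2.2.2.1) p4_bc
  rw [e, sum_P, sum_P, hl0, hl1, hl2, hl3, hm0, hm1, hm2, hm3, hk0, hk1, hk2, hk3, F01, F02, F03,
    rf_two h3]
  ring

end Pool.Agent.Run7.h135.P24
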