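import Pool.Agent.Run7.h135.P24.Asm
import Pool.Agent.Run7.h135.P24.C1A
import Pool.Agent.Run7.h135.P24.CP
import Pool.Agent.Run7.h135.P24.Rel
import Pool.Agent.Run7.h135.P24.R
import Pool.Agent.Run7.h135.P15.C1B

/-!
# `X_0(24)`: the bilinear identities, and the diagonal identity from the evaluation of the divisor sums
-/

set_option autoImplicit false

namespace Pool.Agent.Run7.h135.P24

theorem t_BIL : S_BIL := bil cp3_loc pc0 rel22

theorem t_BILF : S_BILF := bilf cpf3_loc relf rf_eq

theorem t_DIAG (h : S_C2A) : S_DIAG := diag c1a Pool.Agent.Run7.h135.P15.c1b h t_BIL t_BILF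

end Pool.Agent.Run7.h135.P24
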