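import Pool.Agent.Run7.h135.P24.Dim3
import Pool.Agent.Run7.h741.MH.Stm

/-!
# `S_DIM` of level `24`
-/

set_option autoImplicit false

namespace Pool.Agent.Run7.h135.P24

theorem t_DIM : Pool.Agent.Run7.h741.MH.S_DIM := Dm.dim24

end Pool.Agent.Run7.h135.P24
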