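import Mathlib
import Pool.Agent.Z700.Defs
import Pool.Agent.N969.P15.Defs

/-!
# Twists of `X_0(24)` by `-n`, `n ≡ 11 mod 24` squarefree: definitions and statements

The definite side counts vectors of `ℤ³` congruent to `(1, 1, 1)` modulo `4`, the indefinite side
consists of binary forms of discriminant `1` and levels `6` and `24`. Everything is parallel to
`Pool/Agent/N969/P15/Defs.lean`, but no Hecke operator is needed.
-/

set_option autoImplicit false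

namespace Pool.Agent.Run7.h135.P24

open Finset
open Pool.Agent.Z700 (hh fac)
open Pool.Agent.N969.P15 (V3 Qc psp un)

noncomputable section

/-- the inner product of `ℤ³` -/
def ip (v w : V3) : ℤ := v 0 * w 0 + v 1 * w 1 + v 2 * w 2

/-- all vectors of norm `n` -/
def vef (n : ℤ) : Finset V3 :=
  (Fintype.piFinset fun _ => Icc (-n) n).filter fun v => ip v v = n

/-- the vectors of norm `n` congruent to `(1, 1, 1)` modulo `4` -/
def vec (n : ℤ) : Finset V3 := (vef n).filter fun v => v 0 % 4 = 1 ∧ v 1 % 4 = 1 ∧ v 2 % 4 = 1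

/-- the number of all vectors of norm `n` -/
def rf (n : ℤ) : ℤ := (vef n).card

/-- the number of vectors of norm `n` congruent to `(1, 1, 1)` modulo `4` -/
def rr (n : ℤ) : ℤ := (vec n).card

/-- the number of those orthogonal to the line of `(1, 1, 1)` modulo `3` -/
def rr0 (n : ℤ) : ℤ := ((vec n).filter fun v => (3 : ℤ) ∣ v 0 + v 1 + v 2).card

/-- the Gross sum -/
def cc (n : ℤ) : ℤ := if n % 3 = 0 then rr n - 4 * rr0 n else rr n - 2 * rr0 n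

/-- the number of pairs of vectors `≡ (1, 1, 1) mod 4` with Gram matrix `(n1, b; b, n2)` -/
def cp (n1 b n2 : ℤ) : ℕ := ((vec n1 ×ˢ vec n2).filter fun q => ip q.1 q.2 = b).card

/-- the number of all pairs of vectors with Gram matrix `(n1, b; b, n2)` -/
def cpf (n1 b n2 : ℤ) : ℕ := ((vef n1 ×ˢ vef n2).filter fun q => ip q.1 q.2 = b).card

/-- the local densities -/
def loc (n1 D : ℕ) : ℤ :=
  if Odd (D.factorization 2) then ∏ l ∈ D.primeFactors.erase 2, fac n1 D l else 0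

/-- the local densities with the count at `3` of the pairs with a common line -/
def loc3 (n1 D : ℕ) : ℤ :=
  if Odd (D.factorization 2) then
    (D.factorization 3 : ℤ) * ∏ l ∈ (D.primeFactors.erase 2).erase 3, fac n1 D l
  else 0

/-! ### pair counts -/

/-- PCF: the number of pairs of vectors of `ℤ³` with given Gram matrix -/
def S_PCF : Prop := ∀ (n1 n2 : ℕ) (b : ℤ) (D : ℕ), Squarefree n1 → n1 % 8 = 3 → n2 % 8 = 3 →
  Odd b → 0 < D → (D : ℤ) = n1 * n2 - b ^ 2 → (cpf n1 b n2 : ℤ) = 24 * loc n1 D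

/-- PC: the number of pairs of vectors `≡ (1, 1, 1) mod 4` with given Gram matrix -/
def S_PC : Prop := ∀ (n1 n2 : ℕ) (b : ℤ) (D : ℕ), Squarefree n1 → n1 % 8 = 3 → n2 % 8 = 3 →
  (16 : ℤ) ∣ n1 + n2 - 2 * b → 0 < D → (D : ℤ) = n1 * n2 - b ^ 2 →
  (cp n1 b n2 : ℤ) = 3 * loc n1 D

/-- PC0: there are no pairs for other inner products -/
def S_PC0 : Prop := ∀ (n1 n2 b : ℤ), ¬ (16 : ℤ) ∣ n1 + n2 - 2 * b → cp n1 b n2 = 0

/-! ### the relations with the Gross sums -/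

/-- the number of pairs with inner product divisible by `3` -/
def cp0 (n1 n2 : ℤ) : ℕ := ((vec n1 ×ˢ vec n2).filter fun q => (3 : ℤ) ∣ ip q.1 q.2).card

/-- REL33 -/
def S_REL33 : Prop := ∀ n1 n2 : ℕ, 3 ∣ n1 → ¬ 9 ∣ n1 → 3 ∣ n2 → ¬ 9 ∣ n2 →
  12 * (cp0 n1 n2 : ℤ) = 3 * rr n1 * rr n2 + cc n1 * cc n2

/-- REL32 -/
def S_REL32 : Prop := ∀ n1 n2 : ℕ, 3 ∣ n1 → ¬ 9 ∣ n1 → n2 % 3 = 2 →
  6 * (cp0 n1 n2 : ℤ) = 3 * rr n1 * rr n2 + cc n1 * cc n2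

/-- REL31: there are no such pairs for `n2 ≡ 1 mod 3` -/
def S_REL31 : Prop := ∀ n1 n2 : ℕ, 3 ∣ n1 → ¬ 9 ∣ n1 → n2 % 3 = 1 → cp0 n1 n2 = 0

/-- the number of pairs with inner product `b` which are proportional modulo `3` -/
def cp3 (n1 b n2 : ℤ) : ℕ := ((vec n1 ×ˢ vec n2).filter fun q =>
  ip q.1 q.2 = b ∧ ∀ i, (3 : ℤ) ∣ q.1 i + b * q.2 i).card

/-- the same for all vectors of `ℤ³` -/
def cpf3 (n1 b n2 : ℤ) : ℕ := ((vef n1 ×ˢ vef n2).filter fun q =>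
  ip q.1 q.2 = b ∧ ∀ i, (3 : ℤ) ∣ q.1 i + b * q.2 i).card

/-- REL22: the pairs with a common isotropic line modulo `3`, with given sign at `3` -/
def S_REL22 : Prop := ∀ n1 n2 : ℕ, n1 % 3 = 2 → n2 % 3 = 2 → ∀ r3 : ℤ, (r3 = 1 ∨ r3 = 2) →
  ∀ B : ℤ, (n1 : ℤ) * n2 < B ^ 2 → 0 < B →
  6 * ∑ b ∈ (Ioo (-B) B).filter (fun b : ℤ => b % 3 = r3),
    ((cp n1 b n2 : ℤ) + cp3 n1 b n2) = 3 * rr n1 * rr n2 + cc n1 * cc n2

/-- RELF: the same for all vectors of `ℤ³` (all four lines are equivalent) -/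
def S_RELF : Prop := ∀ n : ℕ, n % 8 = 3 → n % 3 = 2 → ∀ B : ℤ, (n : ℤ) < B →
  4 * ∑ b ∈ (Ioo (-B) B).filter (fun b : ℤ => b % 3 = 1 ∧ b % 4 = 3),
    ((cpf n b n : ℤ) + cpf3 n b n) = rf n ^ 2

/-- RF: the vectors modulo `4` -/
def S_RF : Prop := ∀ n : ℕ, n % 8 = 3 → rf n = 8 * rr n

/-- CP3: evaluation of the counts for a given inner product -/
def S_CP3 : Prop := ∀ (n1 n2 : ℕ) (b : ℤ) (D : ℕ), Squarefree n1 → n1 % 8 = 3 → n2 % 8 = 3 →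
  n1 % 3 = 2 → n2 % 3 = 2 → ¬ (3 : ℤ) ∣ b → (16 : ℤ) ∣ n1 + n2 - 2 * b → 0 < D →
  (D : ℤ) = n1 * n2 - b ^ 2 → (cp n1 b n2 : ℤ) + cp3 n1 b n2 = 6 * loc3 n1 D

/-- CPF3: the same for all vectors of `ℤ³` -/
def S_CPF3 : Prop := ∀ (n1 n2 : ℕ) (b : ℤ) (D : ℕ), Squarefree n1 → n1 % 8 = 3 → n2 % 8 = 3 →
  n1 % 3 = 2 → n2 % 3 = 2 → ¬ (3 : ℤ) ∣ b → Odd b → 0 < D →
  (D : ℤ) = n1 * n2 - b ^ 2 → (cpf n1 b n2 : ℤ) + cpf3 n1 b n2 = 48 * loc3 n1 D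

/-- the arithmetic side of the bilinear identities, `e = 2` or `e = 8` -/
def AA (e n : ℕ) : ℤ := ∑ T ∈ (range n).filter (fun T => e ∣ T ∧ 3 ∣ n - T),
  loc3 n (4 * (n - T) * T)

/-- the class of the main theorem -/
def Cls0 (n : ℕ) : Prop := Squarefree n ∧ n % 24 = 11

/-- the auxiliary class `3 m` -/
def Cls3 (m : ℕ) : Prop := Squarefree m ∧ m % 8 = 1 ∧ ¬ 3 ∣ m

/-- BIL: the bilinear identities -/
def S_BIL : Prop := ∀ n : ℕ, Cls0 n → 36 * AA 8 n = 3 * rr n ^ 2 + cc n ^ 2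

def S_BILF : Prop := ∀ n : ℕ, Cls0 n → 3 * AA 2 n = rr n ^ 2

/-! ### divisibility and parity -/

/-- U33 -/
def S_U33 : Prop := ∀ m : ℕ, Cls3 m → 1 < m →
  (2 : ℤ) ^ m.primeFactors.card ∣
    ∑ d ∈ m.divisors.filter (fun d => d % 8 = 1), (cp0 (3 * d : ℕ) (3 * (m / d) : ℕ) : ℤ)

/-- U32 -/
def S_U32 : Prop := ∀ n : ℕ, Cls0 n →
  (2 : ℤ) ^ n.primeFactors.card ∣
    2 * ∑ d ∈ n.divisors.filter (fun d => d % 8 = 1), (cp0 (3 * d : ℕ) (n / d : ℕ) : ℤ)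

/-- R: the parity of the number of vectors (three squares, `3 h(-n)`) -/
def S_R : Prop := ∀ n : ℕ, Squarefree n → n % 8 = 3 →
  ∃ g : ℤ, 2 * rr n = 2 ^ n.primeFactors.card * g ∧ (Odd g ↔ Qc n)

/-- PAR: the parity of the Gross sum -/
def S_PAR : Prop := ∀ n : ℕ, Cls0 n →
  ∃ y : ℤ, 2 * cc n = 2 ^ n.primeFactors.card * y ∧ (Odd y ↔ Qc n)

/-! ### the symbol -/

/-- the forms `A x² + B x y + C y²` of discriminant `1` entering the symbol of level `3 e`,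
`e = 2` or `e = 8` -/
def Fm (e : ℤ) (q : ℤ × ℤ × ℤ) : Prop := q.2.1 ^ 2 - 4 * q.1 * q.2.2 = 1 ∧ 3 * e ∣ q.1 ∧
  ((q.2.1 % (2 * e) = 1 ∧ q.2.1 % 3 = 2) ∨ (q.2.1 % (2 * e) = 2 * e - 1 ∧ q.2.1 % 3 = 1))

/-- the sign of a form -/
def cQ (q : ℤ × ℤ × ℤ) : ℤ := if q.2.1 % 3 = 2 then 1 else -1

open Classical in
/-- the number of forms changing sign between `∞` and `x / M` -/
def Fe (e x M : ℤ) : ℤ := ∑ᶠ q : ℤ × ℤ × ℤ,
  if Fm e q ∧ 0 < q.1 ∧ q.1 * x ^ 2 + q.2.1 * x * M + q.2.2 * M ^ 2 < 0 then cQ q else 0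

/-- the symbol of level `24`: a homomorphism on `Γ₀(24)` -/
def Fp (x M : ℤ) : ℤ := 4 * Fe 8 x M - Fe 2 x M

/-- the divisor sum of the indefinite side -/
def WW (e n S T : ℕ) : ℤ :=
  ∑ a ∈ S.divisors.filter (3 ∣ ·), ∑ a' ∈ T.divisors.filter (e ∣ ·),
    ∏ p ∈ n.primeFactors, psp p a a' (S / a) (T / a')

/-- the sum of the divisor sums -/
def WT (e n : ℕ) : ℤ := ∑ T ∈ (range n).filter (fun T => e ∣ T ∧ 3 ∣ n - T), WW e n (n - T) T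

/-- the sum over the cusps for `a Y + a' X = n` -/
def WU (e n : ℕ) : ℤ := ∑ T ∈ (range n).filter (fun T => e ∣ T ∧ 3 ∣ n - T),
  ∑ a ∈ (n - T).divisors.filter (3 ∣ ·), ∑ a' ∈ T.divisors.filter (e ∣ ·),
    ∑ u ∈ (un n).filter (fun u : ℕ => (n : ℤ) ∣ (a : ℤ) * (u : ℤ) + ((T / a' : ℕ) : ℤ) ∧
      (n : ℤ) ∣ (a' : ℤ) * (u : ℤ) - (((n - T) / a : ℕ) : ℤ)), jacobiSym u n

/-- C1A: the forms and the cusps as factorizations -/
def S_C1A : Prop := ∀ n : ℕ, Cls0 n → ∀ e : ℕ, (e = 2 ∨ e = 8) →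
  ∑ u ∈ un n, jacobiSym u n * Fe e u n = 2 * WU e n

/-- C2A: evaluation of the divisor sums -/
def S_C2A : Prop := ∀ n : ℕ, Cls0 n → ∀ e : ℕ, (e = 2 ∨ e = 8) → ∀ T : ℕ, 0 < T → T < n → e ∣ T →
  3 ∣ n - T → WW e n (n - T) T = - loc3 n (4 * (n - T) * T)

/-- DIAG: the character sum of `Fp` is a square up to a factor -/
def S_DIAG : Prop := ∀ n : ℕ, Cls0 n →
  9 * ∑ u ∈ un n, jacobiSym u n * Fp u n = -2 * cc n ^ 2

end

end Pool.Agent.Run7.h135.P24
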