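import Pool.Agent.Run7.h135.P24.Defs

/-!
# `X_0(24)`: the bilinear identities and the diagonal identity from the local statements
-/

set_option autoImplicit false

namespace Pool.Agent.Run7.h135.P24

open Finset
open Pool.Agent.N969.P15 (psp un)

theorem cls_facts {n : ℕ} (hn : Cls0 n) : n % 8 = 3 ∧ n % 4 = 3 ∧ n % 3 = 2 ∧ 10 < n := by
  have := hn.2
  omega

theorem loc3_even {n1 D : ℕ} (h : ¬ Odd (D.factorization 2)) : loc3 n1 D = 0 := by
  rw [loc3, if_neg h]

/-- the sum over the inner products as a sum over `T` -/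
theorem sum_b_T {n e : ℕ} (hn : Cls0 n) (he : e = 2 ∨ e = 8) (F : ℤ → ℤ) :
    ∑ b ∈ (Ioo (-((n : ℤ) + 1)) ((n : ℤ) + 1)).filter
      (fun b : ℤ => b % 3 = 1 ∧ 2 * (e : ℤ) ∣ (n : ℤ) - b), F b =
    ∑ T ∈ (range n).filter (fun T => e ∣ T ∧ 3 ∣ n - T), F ((n : ℤ) - 2 * T) := by
  obtain ⟨h8, h4, h3, hbig⟩ := cls_facts hn
  refine sum_bij' (fun b _ => (((n : ℤ) - b) / 2).toNat) (fun T _ => (n : ℤ) - 2 * T) ?_ ?_ ?_ ?_ ?_
  · intro b hb
    rw [mem_filter, mem_Ioo] at hb
    obtain ⟨⟨b1, b2⟩, b3, b4⟩ := hb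
    rw [mem_filter, mem_range]
    rcases he with rfl | rfl
    · push_cast at b4
      omega
    · push_cast at b4
      omega
  · intro T hT
    rw [mem_filter, mem_range] at hT
    obtain ⟨t1, t2, t3⟩ := hT
    rw [mem_filter, mem_Ioo]
    rcases he with rfl | rfl
    · push_cast
      omega
    · push_cast
      omega
  · intro b hb
    rw [mem_filter, mem_Ioo] at hb
    obtain ⟨⟨b1, b2⟩, b3, b4⟩ := hb
    rcases he with rfl | rfl
    · push_cast at b4
      omega
    · push_cast at b4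
      omega
  · intro T hT
    omega
  · intro b hb
    rw [mem_filter, mem_Ioo] at hb
    obtain ⟨⟨b1, b2⟩, b3, b4⟩ := hb
    congr 1
    rcases he with rfl | rfl
    · push_cast at b4
      omega
    · push_cast at b4
      omega

/-- the discriminant for given `T` -/
theorem disc_T {n T : ℕ} (hT : T ≤ n) :
    ((4 * (n - T) * T : ℕ) : ℤ) = (n : ℤ) * n - ((n : ℤ) - 2 * T) ^ 2 := by
  push_cast [hT]
  ring

theorem bil (hCP : S_CP3) (h0 : S_PC0) (hR : S_REL22) : S_BIL := by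
  intro n hn
  obtain ⟨h8, h4, h3, hbig⟩ := cls_facts hn
  have key := hR n n h3 h3 1 (Or.inl rfl) ((n : ℤ) + 1) (by nlinarith) (by omega)
  have hcp3 : ∀ b : ℤ, cp n b n = 0 → cp3 n b n = 0 := by
    intro b hb
    rw [cp, card_eq_zero] at hb
    rw [cp3, card_eq_zero, ← subset_empty, ← hb]
    intro q hq
    rw [mem_filter] at hq ⊢
    exact ⟨hq.1, hq.2.1⟩
  have hs : ∑ b ∈ (Ioo (-((n : ℤ) + 1)) ((n : ℤ) + 1)).filter (fun b : ℤ => b % 3 = 1),
      ((cp n b n : ℤ) + cp3 n b n) =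
      ∑ b ∈ (Ioo (-((n : ℤ) + 1)) ((n : ℤ) + 1)).filter
      (fun b : ℤ => b % 3 = 1 ∧ 2 * ((8 : ℕ) : ℤ) ∣ (n : ℤ) - b), ((cp n b n : ℤ) + cp3 n b n) := by
    rw [← filter_filter, sum_filter (fun b : ℤ => 2 * ((8 : ℕ) : ℤ) ∣ (n : ℤ) - b)]
    apply sum_congr rfl
    intro b hb
    rw [mem_filter, mem_Ioo] at hb
    obtain ⟨⟨b1, b2⟩, b3⟩ := hb
    split_ifs with h
    · rfl
    · by_cases h16 : (16 : ℤ) ∣ (n : ℤ) + n - 2 * b
      · -- `T ≡ 4 mod 8`
        have hT : ∃ T : ℕ, b = (n : ℤ) - 2 * T ∧ T < n ∧ 0 < T ∧ T % 8 = 4 := by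
          push_cast at h
          refine ⟨(((n : ℤ) - b) / 2).toNat, ?_, ?_, ?_, ?_⟩ <;> omega
        obtain ⟨T, rfl, t1, t2, t3⟩ := hT
        have hD := disc_T t1.le
        have hpos : 0 < 4 * (n - T) * T := by
          have : 0 < n - T := by omega
          positivity
        have k := hCP n n ((n : ℤ) - 2 * T) (4 * (n - T) * T) hn.1 h8 h8 h3 h3 (by omega) h16
          hpos hD
        rw [k, loc3_even, mul_zero]
        have e1 : 4 * (n - T) * T = 2 ^ 4 * ((n - T) * (T / 4)) := by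
          have : T = 4 * (T / 4) := by omega
          conv_lhs => rw [this]
          have : n - 4 * (T / 4) = n - T := by omega
          rw [this]
          ring
        have e2 : ¬ 2 ∣ (n - T) * (T / 4) := by
          rw [Nat.prime_two.dvd_mul]
          omega
        have e3 : (n - T) * (T / 4) ≠ 0 := by
          intro h
          exact e2 (h ▸ dvd_zero 2)
        rw [e1, Nat.factorization_mul (by norm_num) e3, Finsupp.add_apply,
          Nat.prime_two.factorization_pow, Nat.factorization_eq_zero_of_not_dvd e2]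
        simp
        decide
      · have := h0 n n b h16
        rw [this, hcp3 b this]
        norm_num
  rw [hs, sum_b_T hn (Or.inr rfl) (fun b => (cp n b n : ℤ) + cp3 n b n)] at key
  have hs2 : ∑ T ∈ (range n).filter (fun T => 8 ∣ T ∧ 3 ∣ n - T),
      ((cp n ((n : ℤ) - 2 * T) n : ℤ) + cp3 n ((n : ℤ) - 2 * T) n) = 6 * AA 8 n := by
    rw [AA, mul_sum]
    apply sum_congr rfl
    intro T hT
    rw [mem_filter, mem_range] at hT
    obtain ⟨t1, t2, t3⟩ := hT
    have hT0 : 0 < T := by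
      rcases Nat.eq_zero_or_pos T with rfl | h
      · exfalso; omega
      · exact h
    have hpos : 0 < 4 * (n - T) * T := by
      have : 0 < n - T := by omega
      positivity
    exact hCP n n ((n : ℤ) - 2 * T) (4 * (n - T) * T) hn.1 h8 h8 h3 h3 (by omega) (by omega) hpos
      (disc_T t1.le)
  rw [hs2] at key
  linear_combination key

theorem bilf (hCP : S_CPF3) (hR : S_RELF) (hF : S_RF) : S_BILF := by
  intro n hn
  obtain ⟨h8, h4, h3, hbig⟩ := cls_facts hn
  have key := hR n h8 h3 ((n : ℤ) + 1) (by omega)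
  have hs : (Ioo (-((n : ℤ) + 1)) ((n : ℤ) + 1)).filter (fun b : ℤ => b % 3 = 1 ∧ b % 4 = 3) =
      (Ioo (-((n : ℤ) + 1)) ((n : ℤ) + 1)).filter
      (fun b : ℤ => b % 3 = 1 ∧ 2 * ((2 : ℕ) : ℤ) ∣ (n : ℤ) - b) := by
    apply filter_congr
    intro b _
    push_cast
    omega
  rw [hs, sum_b_T hn (Or.inl rfl) (fun b => (cpf n b n : ℤ) + cpf3 n b n)] at key
  have hs2 : ∑ T ∈ (range n).filter (fun T => 2 ∣ T ∧ 3 ∣ n - T),
      ((cpf n ((n : ℤ) - 2 * T) n : ℤ) + cpf3 n ((n : ℤ) - 2 * T) n) = 48 * AA 2 n := by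
    rw [AA, mul_sum]
    apply sum_congr rfl
    intro T hT
    rw [mem_filter, mem_range] at hT
    obtain ⟨t1, t2, t3⟩ := hT
    have hT0 : 0 < T := by
      rcases Nat.eq_zero_or_pos T with rfl | h
      · exfalso; omega
      · exact h
    have hpos : 0 < 4 * (n - T) * T := by
      have : 0 < n - T := by omega
      positivity
    have hodd : Odd ((n : ℤ) - 2 * T) := by
      rw [Int.odd_iff]
      omega
    exact hCP n n ((n : ℤ) - 2 * T) (4 * (n - T) * T) hn.1 h8 h8 h3 h3 (by omega) hodd hpos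
      (disc_T t1.le)
  have h9 := hF n h8
  rw [hs2, h9] at key
  have : 64 * (3 * AA 2 n) = 64 * rr n ^ 2 := by linear_combination key
  linarith

/-- the sum over the cusps equals the divisor sum -/
theorem WU_WT (h1 : Pool.Agent.N969.P15.S_C1B) {n : ℕ} (hn : Squarefree n) (h4 : n % 4 = 3)
    (e : ℕ) : WU e n = WT e n := by
  rw [WU, WT]
  apply sum_congr rfl
  intro T hT
  rw [mem_filter, mem_range] at hT
  rw [WW]
  apply sum_congr rfl
  intro a ha
  apply sum_congr rfl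
  intro a' ha'
  rw [mem_filter, Nat.mem_divisors] at ha ha'
  apply h1 n hn h4 n (Or.inl rfl) a a' (T / a') ((n - T) / a)
  rw [Nat.mul_div_cancel' ha.1.1, Nat.mul_div_cancel' ha'.1.1]
  omega

theorem WT_AA (h2 : S_C2A) {n : ℕ} (hn : Cls0 n) {e : ℕ} (he : e = 2 ∨ e = 8) :
    WT e n = -AA e n := by
  obtain ⟨h8, h4, h3, hbig⟩ := cls_facts hn
  rw [WT, AA, ← sum_neg_distrib]
  apply sum_congr rfl
  intro T hT
  rw [mem_filter, mem_range] at hT
  obtain ⟨t1, t2, t3⟩ := hT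
  have hT0 : 0 < T := by
    rcases Nat.eq_zero_or_pos T with rfl | h
    · exfalso; omega
    · exact h
  exact h2 n hn e he T hT0 t1 t2 t3

theorem diag (h1 : S_C1A) (h2 : Pool.Agent.N969.P15.S_C1B) (h3 : S_C2A) (h5 : S_BIL)
    (h6 : S_BILF) : S_DIAG := by
  intro n hn
  obtain ⟨g8, g4, g3, hbig⟩ := cls_facts hn
  have k1 := h5 n hn
  have k2 := h6 n hn
  have k3 := h1 n hn 8 (Or.inr rfl)
  have k4 := h1 n hn 2 (Or.inl rfl)
  rw [WU_WT h2 hn.1 g4, WT_AA h3 hn (Or.inr rfl)] at k3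
  rw [WU_WT h2 hn.1 g4, WT_AA h3 hn (Or.inl rfl)] at k4
  have k5 : ∑ u ∈ un n, jacobiSym u n * Fp u n =
      4 * ∑ u ∈ un n, jacobiSym u n * Fe (8 : ℕ) u n - ∑ u ∈ un n, jacobiSym u n * Fe (2 : ℕ) u n := by
    rw [mul_sum, ← sum_sub_distrib]
    apply sum_congr rfl
    intro u _
    rw [Fp]
    push_cast
    ring
  rw [k5, k3, k4]
  linear_combination -2 * k1 + 6 * k2

end Pool.Agent.Run7.h135.P24
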