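import Mathlib

/-!
# `Γ₀(24)`: representatives of the cosets and the norm to level one
-/

set_option autoImplicit false

open UpperHalfPlane ModularForm MatrixGroups CongruenceSubgroup Filter Topology
open Matrix.SpecialLinearGroup (mapGL)
open scoped Manifold

namespace Pool.Agent.Run7.h135.P24.Dm

noncomputable section

/-- the index set of the cosets -/
abbrev II : Type := Unit ⊕ (Fin 24 ⊕ (Fin 6 ⊕ (Fin 8 ⊕ (Fin 3 ⊕ (Fin 2 ⊕ (Fin 3 ⊕ Unit))))))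

/-- translations -/
def tt (j : ℤ) : SL(2, ℤ) := ⟨!![1, j; 0, 1], by simp [Matrix.det_fin_two]⟩

/-- the base matrices -/
def bb0 : SL(2, ℤ) := ⟨!![0, -1; 1, 0], by simp [Matrix.det_fin_two]⟩
def bb (c : ℤ) : SL(2, ℤ) := ⟨!![1, 0; c, 1], by simp [Matrix.det_fin_two]⟩

/-- the representatives -/
def rep : II → SL(2, ℤ)
  | .inl _ => 1
  | .inr (.inl j) => bb0 * tt ((j : ℕ) : ℤ)
  | .inr (.inr (.inl j)) => bb 2 * tt ((j : ℕ) : ℤ)
  | .inr (.inr (.inr (.inl j))) => bb 3 * tt ((j : ℕ) : ℤ)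
  | .inr (.inr (.inr (.inr (.inl j)))) => bb 4 * tt ((j : ℕ) : ℤ)
  | .inr (.inr (.inr (.inr (.inr (.inl j))))) => bb 6 * tt ((j : ℕ) : ℤ)
  | .inr (.inr (.inr (.inr (.inr (.inr (.inl j)))))) => bb 8 * tt ((j : ℕ) : ℤ)
  | .inr (.inr (.inr (.inr (.inr (.inr (.inr _)))))) => bb 12

/-- the bottom rows modulo `24` -/
def bot : II → ZMod 24 × ZMod 24
  | .inl _ => (0, 1)
  | .inr (.inl j) => (1, ((j : ℕ) : ZMod 24))
  | .inr (.inr (.inl j)) => (2, 2 * ((j : ℕ) : ZMod 24) + 1)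
  | .inr (.inr (.inr (.inl j))) => (3, 3 * ((j : ℕ) : ZMod 24) + 1)
  | .inr (.inr (.inr (.inr (.inl j)))) => (4, 4 * ((j : ℕ) : ZMod 24) + 1)
  | .inr (.inr (.inr (.inr (.inr (.inl j))))) => (6, 6 * ((j : ℕ) : ZMod 24) + 1)
  | .inr (.inr (.inr (.inr (.inr (.inr (.inl j)))))) => (8, 8 * ((j : ℕ) : ZMod 24) + 1)
  | .inr (.inr (.inr (.inr (.inr (.inr (.inr _)))))) => (12, 1)

theorem bot_rep (i : II) : (((rep i) 1 0 : ℤ) : ZMod 24) = (bot i).1 ∧
    (((rep i) 1 1 : ℤ) : ZMod 24) = (bot i).2 := by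
  rcases i with _ | j | j | j | j | j | j | j <;>
    simp [rep, bot, tt, bb0, bb, Matrix.mul_apply, Fin.sum_univ_two]

set_option synthInstance.maxSize 100000 in
theorem bot_inj : ∀ i j : II, (bot i).1 * (bot j).2 - (bot i).2 * (bot j).1 = 0 → i = j := by
  decide +kernel

set_option synthInstance.maxSize 100000 in
theorem bot_surj : ∀ c d : ZMod 24, ¬ (12 * c = 0 ∧ 12 * d = 0) → ¬ (8 * c = 0 ∧ 8 * d = 0) →
    ∃ i : II, (bot i).1 * d - (bot i).2 * c = 0 := by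
  decide +kernel

/-- membership in `Γ₀(24)` through the bottom rows -/
theorem mem_iff (a b : SL(2, ℤ)) : a * b⁻¹ ∈ Gamma0 24 ↔
    ((a 1 0 : ℤ) : ZMod 24) * ((b 1 1 : ℤ) : ZMod 24) -
      ((a 1 1 : ℤ) : ZMod 24) * ((b 1 0 : ℤ) : ZMod 24) = 0 := by
  rw [Gamma0_mem]
  have h : (a * b⁻¹) 1 0 = a 1 0 * b 1 1 - a 1 1 * b 1 0 := by
    rw [Matrix.SpecialLinearGroup.SL2_inv_expl b]
    simp [Matrix.mul_apply, Fin.sum_univ_two]
    ring
  rw [h]
  push_cast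
  rfl

/-- the group `Γ₀(24)` -/
abbrev GG : Subgroup (GL (Fin 2) ℝ) := (Gamma0 24 : Subgroup (GL (Fin 2) ℝ))

/-- the cosets -/
abbrev QQt : Type := 𝒮ℒ ⧸ (GG.subgroupOf 𝒮ℒ)

theorem mem_GG (a : SL(2, ℤ)) : mapGL ℝ a ∈ GG ↔ a ∈ Gamma0 24 := by
  constructor
  · rintro ⟨b, hb, h⟩
    have := Matrix.SpecialLinearGroup.mapGL_injective (S := ℝ) h
    rwa [← this]
  · intro h
    exact ⟨a, h, rfl⟩

/-- the coset of a representative -/
def cs (i : II) : QQt := QuotientGroup.mk ⟨mapGL ℝ (rep i)⁻¹, ⟨(rep i)⁻¹, rfl⟩⟩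

theorem cs_bij : Function.Bijective cs := by
  constructor
  · intro i j h
    unfold cs at h
    rw [QuotientGroup.eq, Subgroup.mem_subgroupOf] at h
    have h2 : mapGL ℝ (rep i * (rep j)⁻¹) ∈ GG := by
      have e : mapGL ℝ (rep i * (rep j)⁻¹) = (mapGL ℝ (rep i)⁻¹)⁻¹ * mapGL ℝ (rep j)⁻¹ := by
        simp
      rw [e]
      exact h
    rw [mem_GG, mem_iff, (bot_rep i).1, (bot_rep i).2, (bot_rep j).1, (bot_rep j).2] at h2
    exact bot_inj i j h2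
  · intro q
    induction q using QuotientGroup.induction_on with
    | H h =>
      obtain ⟨_, ⟨γ, rfl⟩⟩ := h
      set c : ℤ := (γ⁻¹) 1 0 with hc
      set d : ℤ := (γ⁻¹) 1 1 with hd
      have hdet : (γ⁻¹) 0 0 * d - (γ⁻¹) 0 1 * c = 1 := by
        have := (γ⁻¹).det_coe
        rwa [Matrix.det_fin_two] at this
      have hdet' : ((((γ⁻¹) 0 0 : ℤ) : ZMod 24)) * (d : ZMod 24) -
          (((γ⁻¹) 0 1 : ℤ) : ZMod 24) * (c : ZMod 24) = 1 := by
        exact_mod_cast congrArg (Int.cast : ℤ → ZMod 24) hdet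
      have h7 : ¬ (12 * (c : ZMod 24) = 0 ∧ 12 * (d : ZMod 24) = 0) := by
        rintro ⟨e1, e2⟩
        have : (12 : ZMod 24) = 0 := by
          linear_combination -12 * hdet' + (((γ⁻¹) 0 0 : ℤ) : ZMod 24) * e2 -
            (((γ⁻¹) 0 1 : ℤ) : ZMod 24) * e1
        revert this
        decide
      have h3 : ¬ (8 * (c : ZMod 24) = 0 ∧ 8 * (d : ZMod 24) = 0) := by
        rintro ⟨e1, e2⟩
        have : (8 : ZMod 24) = 0 := by
          linear_combination -8 * hdet' + (((γ⁻¹) 0 0 : ℤ) : ZMod 24) * e2 -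
            (((γ⁻¹) 0 1 : ℤ) : ZMod 24) * e1
        revert this
        decide
      obtain ⟨i, hi⟩ := bot_surj _ _ h7 h3
      refine ⟨i, ?_⟩
      unfold cs
      rw [QuotientGroup.eq, Subgroup.mem_subgroupOf]
      have h2 : mapGL ℝ (rep i * (γ⁻¹)⁻¹) ∈ GG := by
        rw [mem_GG, mem_iff, (bot_rep i).1, (bot_rep i).2]
        exact hi
      have e : mapGL ℝ (rep i * (γ⁻¹)⁻¹) = (mapGL ℝ (rep i)⁻¹)⁻¹ * mapGL ℝ γ := by
        simp
      rw [e] at h2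
      exact h2

theorem card_cs : Nat.card QQt = 48 := by
  rw [← Nat.card_congr (Equiv.ofBijective cs cs_bij)]
  simp

/-- the translates of a form -/
def tr (g : CuspForm GG 2) (i : II) : ℍ → ℂ := (g : ℍ → ℂ) ∣[(2 : ℤ)] rep i

theorem norm_eq (g : CuspForm GG 2) (z : ℍ) : ModularForm.norm 𝒮ℒ g z = ∏ i : II, tr g i z := by
  rw [ModularForm.coe_norm]
  let _ : Fintype QQt := Fintype.ofFinite QQt
  have h1 := (Equiv.ofBijective cs cs_bij).prod_comp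
    (fun q => SlashInvariantForm.quotientFunc g q z)
  rw [Finset.prod_apply]
  refine h1.symm.trans ?_
  apply Finset.prod_congr rfl
  intro i _
  show SlashInvariantForm.quotientFunc g (cs i) z = _
  have h2 : SlashInvariantForm.quotientFunc g (cs i) =
      (g : ℍ → ℂ) ∣[(2 : ℤ)] ((mapGL ℝ (rep i)⁻¹)⁻¹) := rfl
  rw [h2, map_inv, inv_inv]
  rfl

end

end Pool.Agent.Run7.h135.P24.Dm
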