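import Pool.Agent.Run7.h135.P24.A.Pcf

/-!
# `X_0(24)`: vectors modulo four, the changes of signs

`S_RF`, `S_PC0`, `S_PC` (from `S_PCF`), and the same for the pairs which are proportional modulo `3`.
-/

set_option autoImplicit false

namespace Pool.Agent.Run7.h135.P24

open Finset
open Pool.Agent.N969.P15 (V3)
open Pool.Agent.Run7.h135.P24.A (mem_vef odd_coord)

/-- the changes of signs -/
def sg (s : Fin 3 → Bool) (v : V3) : V3 := fun i => if s i then v i else -v i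

theorem sg_sg (s : Fin 3 → Bool) (v : V3) : sg s (sg s v) = v := by
  funext i
  unfold sg
  split_ifs <;> ring

theorem ip_sg (s : Fin 3 → Bool) (v w : V3) : ip (sg s v) (sg s w) = ip v w := by
  unfold ip sg
  split_ifs <;> ring

/-- congruent to `(1, 1, 1)` modulo `4` -/
def One (v : V3) : Prop := v 0 % 4 = 1 ∧ v 1 % 4 = 1 ∧ v 2 % 4 = 1

instance (v : V3) : Decidable (One v) := by unfold One; infer_instance

theorem One_iff (v : V3) : One v ↔ ∀ i, v i % 4 = 1 := by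
  rw [Fin.forall_fin_succ, Fin.forall_fin_two]
  rfl

/-- the signs of a vector with odd coordinates -/
def sv (v : V3) : Fin 3 → Bool := fun i => decide (v i % 4 = 1)

theorem One_sg {v : V3} (h : ∀ i, v i % 2 = 1) : One (sg (sv v) v) := by
  rw [One_iff]
  intro i
  unfold sg sv
  have := h i
  by_cases h1 : v i % 4 = 1
  · simp [h1]
  · simp [h1]
    omega

theorem sv_sg {v : V3} (h : One v) (s : Fin 3 → Bool) : sv (sg s v) = s := by
  rw [One_iff] at h
  funext i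
  have h1 := h i
  show decide ((if s i = true then v i else -v i) % 4 = 1) = s i
  rcases Bool.eq_false_or_eq_true (s i) with hs | hs
  · rw [hs, if_pos rfl]
    exact decide_eq_true h1
  · rw [hs, if_neg (by decide)]
    exact decide_eq_false (by omega)

/-- the orbits of the changes of signs -/
theorem card_signs {α : Type*} [DecidableEq α] (c : α → V3) (act : (Fin 3 → Bool) → α → α)
    (h1 : ∀ s a, c (act s a) = sg s (c a)) (h2 : ∀ s a, act s (act s a) = a) (A : Finset α)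
    (hA : ∀ s, ∀ a ∈ A, act s a ∈ A) (ho : ∀ a ∈ A, ∀ i, c a i % 2 = 1) :
    A.card = 8 * (A.filter fun a => One (c a)).card := by
  have hc : (univ : Finset (Fin 3 → Bool)).card = 8 := by decide
  rw [← hc, ← card_product]
  refine card_bij' (fun a _ => (sv (c a), act (sv (c a)) a)) (fun q _ => act q.1 q.2) ?_ ?_ ?_ ?_
  · intro a ha
    rw [mem_product, mem_filter, h1]
    exact ⟨mem_univ _, hA _ _ ha, One_sg (ho a ha)⟩
  · rintro ⟨s, a⟩ hq
    rw [mem_product, mem_filter] at hq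
    exact hA _ _ hq.2.1
  · intro a _
    exact h2 _ _
  · rintro ⟨s, a⟩ hq
    rw [mem_product, mem_filter] at hq
    simp only [h1, sv_sg hq.2.2, h2]

theorem odd_all {v : V3} (h : ip v v % 4 = 3) : ∀ i, v i % 2 = 1 := by
  obtain ⟨h0, h1, h2⟩ := odd_coord h
  intro i
  fin_cases i
  · exact h0
  · exact h1
  · exact h2

theorem vec_eq (n : ℤ) : vec n = (vef n).filter fun v => One v := rfl

theorem rf_eq : S_RF := by
  classical
  intro n hn
  have h := card_signs (α := V3) id (fun s v => sg s v) (fun _ _ => rfl) sg_sg (vef n)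
    (fun s v hv => by
      rw [mem_vef] at hv ⊢
      rw [ip_sg]
      exact hv)
    (fun v hv => by
      rw [mem_vef] at hv
      exact odd_all (by
        show ip v v % 4 = 3
        rw [hv]
        omega))
  unfold rf rr
  rw [h, vec_eq]
  push_cast
  rfl

/-- pairs with an invariant condition -/
theorem card_pairs {n1 n2 : ℕ} (hn1 : n1 % 4 = 3) (P : V3 × V3 → Prop) [DecidablePred P]
    (hP : ∀ s q, P q → P (sg s q.1, sg s q.2)) (hm : ∀ q, q.1 ∈ vef n1 → q.2 ∈ vef n2 → P q →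
      One q.1 → One q.2) :
    ((vef n1 ×ˢ vef n2).filter P).card = 8 * ((vec n1 ×ˢ vec n2).filter P).card := by
  classical
  have h := card_signs (α := V3 × V3) (fun q => q.1) (fun s q => (sg s q.1, sg s q.2))
    (fun _ _ => rfl) (fun s q => Prod.ext (sg_sg _ _) (sg_sg _ _)) ((vef n1 ×ˢ vef n2).filter P)
    (fun s q hq => by
      rw [mem_filter, mem_product, mem_vef, mem_vef] at hq ⊢
      rw [ip_sg, ip_sg]
      exact ⟨hq.1, hP s q hq.2⟩)
    (fun q hq => by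
      rw [mem_filter, mem_product, mem_vef] at hq
      exact odd_all (by
        show ip q.1 q.1 % 4 = 3
        rw [hq.1.1]
        omega))
  rw [h]
  congr 2
  ext q
  rw [mem_filter, mem_filter, mem_filter, mem_product, mem_product, vec_eq, vec_eq, mem_filter,
    mem_filter]
  constructor
  · rintro ⟨⟨⟨h1, h2⟩, h3⟩, h4⟩
    exact ⟨⟨⟨h1, h4⟩, h2, hm q h1 h2 h3 h4⟩, h3⟩
  · rintro ⟨⟨⟨h1, h4⟩, h2, _⟩, h3⟩
    exact ⟨⟨⟨h1, h2⟩, h3⟩, h4⟩

/-- vectors with odd coordinates are congruent modulo `4` if and only if ... -/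
theorem one_of_ip {n1 n2 : ℕ} {b : ℤ} (hn1 : n1 % 4 = 3) (hn2 : n2 % 4 = 3)
    (hb : (16 : ℤ) ∣ n1 + n2 - 2 * b) {v w : V3} (hv : ip v v = n1) (hw : ip w w = n2)
    (hvw : ip v w = b) (h : One v) : One w := by
  have ov := odd_all (v := v) (by rw [hv]; omega)
  have ow := odd_all (v := w) (by rw [hw]; omega)
  have e : ip v v + ip w w - 2 * ip v w = (v 0 - w 0) ^ 2 + (v 1 - w 1) ^ 2 + (v 2 - w 2) ^ 2 := by
    unfold ip
    ring
  rw [hv, hw, hvw] at e
  have key : ∀ i, ∃ u : ℤ, v i - w i = 2 * u := fun i => ⟨(v i - w i) / 2, by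
    have := ov i
    have := ow i
    omega⟩
  obtain ⟨u0, k0⟩ := key 0
  obtain ⟨u1, k1⟩ := key 1
  obtain ⟨u2, k2⟩ := key 2
  rw [k0, k1, k2] at e
  obtain ⟨t, ht⟩ := hb
  rw [ht] at e
  have e2 : u0 * u0 + u1 * u1 + u2 * u2 = 4 * t := by linarith
  have e3 : ∀ u : ℤ, (u % 2 = 1 ∧ u * u % 4 = 1) ∨ (u % 2 = 0 ∧ u * u % 4 = 0) := A.sq_mod4
  have e4 : u0 % 2 = 0 ∧ u1 % 2 = 0 ∧ u2 % 2 = 0 := by
    rcases e3 u0 with h0 | h0 <;> rcases e3 u1 with h1 | h1 <;> rcases e3 u2 with h2 | h2 <;> omega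
  unfold One at h ⊢
  omega

theorem cpf_cp {n1 n2 : ℕ} {b : ℤ} (hn1 : n1 % 4 = 3) (hn2 : n2 % 4 = 3)
    (hb : (16 : ℤ) ∣ n1 + n2 - 2 * b) : cpf n1 b n2 = 8 * cp n1 b n2 := by
  unfold cpf cp
  refine card_pairs hn1 _ (fun s q hq => ?_) (fun q h1 h2 h3 h4 => ?_)
  · rw [ip_sg]
    exact hq
  · rw [mem_vef] at h1 h2
    exact one_of_ip hn1 hn2 hb h1 h2 h3 h4

theorem sg_dvd {v w : V3} {b : ℤ} (s : Fin 3 → Bool) {i : Fin 3} (h : (3 : ℤ) ∣ v i + b * w i) :
    (3 : ℤ) ∣ sg s v i + b * sg s w i := by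
  unfold sg
  split_ifs
  · exact h
  · have e : -v i + b * -w i = -(v i + b * w i) := by ring
    rw [e]
    exact (dvd_neg).2 h

theorem cpf3_cp3 {n1 n2 : ℕ} {b : ℤ} (hn1 : n1 % 4 = 3) (hn2 : n2 % 4 = 3)
    (hb : (16 : ℤ) ∣ n1 + n2 - 2 * b) : cpf3 n1 b n2 = 8 * cp3 n1 b n2 := by
  unfold cpf3 cp3
  refine card_pairs hn1 _ (fun s q hq => ?_) (fun q h1 h2 h3 h4 => ?_)
  · refine ⟨?_, fun i => sg_dvd s (hq.2 i)⟩
    rw [ip_sg]
    exact hq.1
  · rw [mem_vef] at h1 h2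
    exact one_of_ip hn1 hn2 hb h1 h2 h3.1 h4

theorem pc : S_PC := by
  intro n1 n2 b D hs hn1 hn2 hb hD hDD
  have hodd : Odd b := by
    rw [Int.odd_iff]
    obtain ⟨t, ht⟩ := hb
    omega
  have h1 := A.pcf n1 n2 b D hs hn1 hn2 hodd hD hDD
  rw [cpf_cp (by omega) (by omega) hb] at h1
  push_cast at h1
  linarith

theorem pc0 : S_PC0 := by
  intro n1 n2 b hb
  unfold cp
  rw [card_eq_zero, filter_eq_empty_iff]
  rintro ⟨v, w⟩ hq h
  apply hb
  rw [mem_product, vec, vec, mem_filter, mem_filter, vef, vef, mem_filter, mem_filter] at hq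
  obtain ⟨⟨⟨_, h1⟩, v0, v1, v2⟩, ⟨⟨_, h2⟩, w0, w1, w2⟩⟩ := hq
  dsimp only at h h1 h2 v0 v1 v2 w0 w1 w2
  have e : ip v v + ip w w - 2 * ip v w = (v 0 - w 0) ^ 2 + (v 1 - w 1) ^ 2 + (v 2 - w 2) ^ 2 := by
    unfold ip
    ring
  rw [h1, h2, h] at e
  rw [e]
  have key : ∀ x y : ℤ, x % 4 = 1 → y % 4 = 1 → (16 : ℤ) ∣ (x - y) ^ 2 := by
    intro x y hx hy
    obtain ⟨u, hu⟩ : ∃ u : ℤ, x - y = 4 * u := ⟨(x - y) / 4, by omega⟩
    rw [hu]
    exact ⟨u ^ 2, by ring⟩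
  exact dvd_add (dvd_add (key _ _ v0 w0) (key _ _ v1 w1)) (key _ _ v2 w2)

end Pool.Agent.Run7.h135.P24
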